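import Pool.Agent.Lib.MP_1a91b9_ntV.D.ClsN
import Pool.Agent.Lib.MP_1a91b9_ntV.DS.MomV

/-!
# MP_1a91b9_nt (twists over other fields), part D: the density of the smallest kernels in a class

`TGe P w γ t`: the main constants of the moments are those of `2 ^ t` times a power of `2` with the
moments `gN k 0`. `denG_lower`, `denG_upper`: in the class `g` the sets `S` with `kM D P S = 2 ^ t` have
the density `∏ (1 - 2 ^ (-i))`.
-/

set_option autoImplicit false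
set_option linter.unusedSectionVars false

namespace Pool.Agent.Lib.MP_1a91b9_ntV

open Finset Pool.Agent.Lib.MP_1a91b9_ntH Pool.Agent.Lib.MP_1a91b9_ntQ
open Pool.Agent.Lib.MP_1a91b9_ntQ.Da
open Pool.Agent.Lib.MP_1a91b9_ntV.DS

noncomputable section

variable {ι : Type} [DecidableEq ι] {κ : Type} [Fintype κ] [DecidableEq κ] {E : Type} [Fintype E]
  [DecidableEq E] {F : Type} [Fintype F] [DecidableEq F]

/-- The size of the kernel is a power of `2`. -/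
theorem exists_kM_pow (D : Dat2 ι κ) (P : BD κ E F) (S : Finset ι) : ∃ r, kM D P S = 2 ^ r := by
  have : Fact (Nat.Prime 2) := ⟨Nat.prime_two⟩
  have h1 : kM D P S = Nat.card (LinearMap.ker (NM D P S).mulVecLin) := by
    rw [kM, ← Nat.card_eq_fintype_card]
    exact Nat.card_congr (Equiv.subtypeEquivRight fun v => by
      rw [LinearMap.mem_ker, Matrix.mulVecLin_apply])
  have : Fintype (LinearMap.ker (NM D P S).mulVecLin) := Fintype.ofFinite _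
  rw [h1, Nat.card_eq_fintype_card, Module.card_eq_pow_finrank (K := ZMod 2), ZMod.card]
  exact ⟨_, rfl⟩

/-- The main constants of the moments. -/
def TGe (P : BD κ E F) (w γ : κ → ZMod 2) (t : ℕ) : Prop :=
  ∀ k : ℕ, 1 ≤ k → TG k P w γ = (((2 : ℝ) ^ t) ^ k * (gN k 0 : ℝ) : ℝ) * (2 ^ k) ^ Fintype.card F

/-- The size of the kernel, divided by `2 ^ t`. -/
def kcT (D : Dat2 ι κ) (P : BD κ E F) (t : ℕ) (S : Finset ι) : ℕ := max (kM D P S / 2 ^ t) 1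

theorem kcT_eq {D : Dat2 ι κ} {P : BD κ E F} {t : ℕ} {S : Finset ι} (h : 2 ^ t ≤ kM D P S) :
    ∃ r, kcT D P t S = 2 ^ r ∧ kM D P S = 2 ^ t * 2 ^ r := by
  obtain ⟨r, hr⟩ := exists_kM_pow D P S
  have h3 : t ≤ r := by
    rw [hr] at h
    exact (Nat.pow_le_pow_iff_right (by norm_num)).1 h
  obtain ⟨s, rfl⟩ := Nat.exists_eq_add_of_le h3
  rw [pow_add] at hr
  refine ⟨s, ?_, hr⟩
  rw [kcT, hr, Nat.mul_div_cancel_left _ (by positivity)]
  exact max_eq_left (Nat.one_le_two_pow)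

theorem kcT_pow (D : Dat2 ι κ) (P : BD κ E F) (t : ℕ) (S : Finset ι) :
    ∃ r, kcT D P t S = 2 ^ r := by
  by_cases h : 2 ^ t ≤ kM D P S
  · obtain ⟨r, h1, -⟩ := kcT_eq h
    exact ⟨r, h1⟩
  · refine ⟨0, ?_⟩
    rw [kcT, Nat.div_eq_of_lt (not_le.1 h), pow_zero]
    rfl

theorem kcT_one {D : Dat2 ι κ} {P : BD κ E F} {t : ℕ} {S : Finset ι} (h : 2 ^ t ≤ kM D P S) :
    kcT D P t S = 1 ↔ kM D P S = 2 ^ t := by
  obtain ⟨r, h1, h2⟩ := kcT_eq h
  rw [h1, h2]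
  constructor
  · intro h
    rw [h, mul_one]
  · intro h
    exact Nat.eq_of_mul_eq_mul_left (by positivity : 0 < 2 ^ t) (h.trans (mul_one _).symm)

variable [PS ι] {G : Type} [AddCommGroup G] [Fintype G]

theorem momG_MF2 {D : Dat2 ι κ} {w : κ → ZMod 2} (hD : OKt D w) (C : Cl2 D G) (h3 : C.H3)
    (P : BD κ E F) (g : G) {t : ℕ} (hT : TGe P w (fun j => C.A j g) t)
    (ht : ∀ S : Finset ι, ∑ q ∈ S, C.cl q = g → 2 ^ t ≤ kM D P S) (k : ℕ) :
    MF2 (SG C g) (kcT D P t) (fun x => x ^ k) (gN k 0) := by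
  intro ε hε
  have ht0 : (0 : ℝ) < 2 ^ t := by positivity
  rcases Nat.eq_zero_or_pos k with rfl | hk
  · refine ⟨0, fun X _ => ?_⟩
    have h0 : ((gN 0 0 : ℕ) : ℝ) = 1 := by rw [gN_zero, Nat.cast_one]
    simp only [pow_zero, sum_const, nsmul_eq_mul, mul_one, h0, one_mul, sub_self, abs_zero]
    positivity
  obtain ⟨X0, h0⟩ := momN_G hD C h3 P hk g (((2 : ℝ) ^ t) ^ k * (gN k 0 : ℝ)) (by positivity)
    (hT k hk) ε hε
  refine ⟨X0, fun X hX => ?_⟩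
  have h1 := h0 X hX
  have e1 : ∀ S ∈ SG C g X, (kM D P S : ℝ) ^ k =
      ((2 : ℝ) ^ t) ^ k * ((kcT D P t S : ℕ) : ℝ) ^ k := by
    intro S hS
    obtain ⟨r, hr, hr2⟩ := kcT_eq (ht S (mem_SG.1 hS).2)
    rw [hr2, hr, ← mul_pow]
    push_cast
    rfl
  rw [sum_congr rfl e1, ← mul_sum] at h1
  have e2 : ((2 : ℝ) ^ t) ^ k * ∑ S ∈ SG C g X, ((kcT D P t S : ℕ) : ℝ) ^ k -
      ((2 : ℝ) ^ t) ^ k * (gN k 0 : ℝ) * ((SG C g X).card : ℝ) =
      ((2 : ℝ) ^ t) ^ k * (∑ S ∈ SG C g X, ((kcT D P t S : ℕ) : ℝ) ^ k -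
        (gN k 0 : ℝ) * ((SG C g X).card : ℝ)) := by ring
  rw [e2, abs_mul, abs_of_pos (pow_pos ht0 k)] at h1
  have h5 : (1 : ℝ) ≤ ((2 : ℝ) ^ t) ^ k := one_le_pow₀ (one_le_pow₀ (by norm_num))
  exact (le_mul_of_one_le_left (abs_nonneg _) h5).trans h1

/-- Both densities of the property `Q` in the class `g`. -/
def TwoV {D : Dat2 ι κ} (C : Cl2 D G) (g : G) (Q : Finset ι → Prop) : Prop := by
  classical
  exact (∀ κ₀ : ℝ, κ₀ < cinfV → ∀ ε : ℝ, 0 < ε → ∃ X₀ : ℕ, ∀ X : ℕ, X₀ ≤ X →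
      κ₀ * ((SG C g X).card : ℝ) - ε * X ≤ (((SG C g X).filter Q).card : ℝ)) ∧
    ∀ κ₀ : ℝ, cinfV < κ₀ → ∀ ε : ℝ, 0 < ε → ∃ X₀ : ℕ, ∀ X : ℕ, X₀ ≤ X →
      (((SG C g X).filter Q).card : ℝ) ≤ κ₀ * ((SG C g X).card : ℝ) + ε * X

theorem TwoV.congr {D : Dat2 ι κ} {C : Cl2 D G} {g : G} {Q Q' : Finset ι → Prop}
    (h : TwoV C g Q) (hQ : ∀ S, ∑ q ∈ S, C.cl q = g → (Q' S ↔ Q S)) : TwoV C g Q' := by
  classical
  have e : ∀ X, (SG C g X).filter Q' = (SG C g X).filter Q := fun X =>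
    filter_congr fun S hS => hQ S (mem_SG.1 hS).2
  unfold TwoV at h ⊢
  simp only [e]
  exact h

open Classical in
theorem TwoV.congr_ne {D : Dat2 ι κ} {C : Cl2 D G} {g : G} {Q Q' : Finset ι → Prop}
    (h : TwoV C g Q) (hQ : ∀ S, S ≠ ∅ → ∑ q ∈ S, C.cl q = g → (Q' S ↔ Q S)) :
    TwoV C g Q' := by
  have key : ∀ (Q Q' : Finset ι → Prop), (∀ S, S ≠ ∅ → ∑ q ∈ S, C.cl q = g → Q S → Q' S) →
      ∀ X, (((SG C g X).filter Q).card : ℝ) ≤ ((SG C g X).filter Q').card + 1 := by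
    intro Q Q' h X
    have h1 : (SG C g X).filter Q ⊆ insert ∅ ((SG C g X).filter Q') := by
      intro S hS
      rw [mem_filter] at hS
      rw [mem_insert, mem_filter]
      by_cases h0 : S = ∅
      · exact Or.inl h0
      · exact Or.inr ⟨hS.1, h S h0 (mem_SG.1 hS.1).2 hS.2⟩
    exact_mod_cast (card_le_card h1).trans (card_insert_le _ _)
  have hN : ∀ ε : ℝ, 0 < ε → ∃ X1 : ℕ, ∀ X : ℕ, X1 ≤ X → (1 : ℝ) ≤ ε / 2 * X := by
    intro ε hε
    obtain ⟨X1, hX1⟩ := exists_nat_gt (2 / ε)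
    refine ⟨X1, fun X hX => ?_⟩
    have h4 : (X1 : ℝ) ≤ X := by exact_mod_cast hX
    have h5 := hX1.le.trans h4
    rw [div_le_iff₀ hε] at h5
    linarith
  have c1 : ∀ X, (((SG C g X).filter Q).card : ℝ) ≤ ((SG C g X).filter Q').card + 1 :=
    key Q Q' fun S h1 h2 h3 => (hQ S h1 h2).2 h3
  have c2 : ∀ X, (((SG C g X).filter Q').card : ℝ) ≤ ((SG C g X).filter Q).card + 1 :=
    key Q' Q fun S h1 h2 h3 => (hQ S h1 h2).1 h3
  refine ⟨fun κ₀ hκ ε hε => ?_, fun κ₀ hκ ε hε => ?_⟩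
  · obtain ⟨X0, h0⟩ := h.1 κ₀ hκ (ε / 2) (by positivity)
    obtain ⟨X1, h1⟩ := hN ε hε
    refine ⟨X0 + X1, fun X hX => ?_⟩
    have h2 := h0 X ((Nat.le_add_right _ _).trans hX)
    have h3 := h1 X ((Nat.le_add_left _ _).trans hX)
    have h4 := c1 X
    linarith
  · obtain ⟨X0, h0⟩ := h.2 κ₀ hκ (ε / 2) (by positivity)
    obtain ⟨X1, h1⟩ := hN ε hε
    refine ⟨X0 + X1, fun X hX => ?_⟩
    have h2 := h0 X ((Nat.le_add_right _ _).trans hX)
    have h3 := h1 X ((Nat.le_add_left _ _).trans hX)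
    have h4 := c2 X
    linarith

/-- **The density of the smallest kernels.** -/
theorem denG {D : Dat2 ι κ} {w : κ → ZMod 2} (hD : OKt D w) (C : Cl2 D G) (h3 : C.H3)
    (P : BD κ E F) (g : G) {t : ℕ} (hT : TGe P w (fun j => C.A j g) t)
    (ht : ∀ S : Finset ι, ∑ q ∈ S, C.cl q = g → 2 ^ t ≤ kM D P S) :
    TwoV C g fun S => kM D P S = 2 ^ t := by
  classical
  have hm := momG_MF2 hD C h3 P g hT ht
  have e : ∀ X, (SG C g X).filter (fun S => kM D P S = 2 ^ t) =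
      (SG C g X).filter fun S => kcT D P t S = 1 := fun X =>
    filter_congr fun S hS => (kcT_one (ht S (mem_SG.1 hS).2)).symm
  refine ⟨fun κ₀ hκ ε hε => ?_, fun κ₀ hκ ε hε => ?_⟩
  · obtain ⟨X0, h0⟩ := densV_lower (kcT_pow D P t) hm hκ ε hε
    refine ⟨X0, fun X hX => ?_⟩
    have h1 := h0 X hX
    rw [← e X] at h1
    refine h1.trans (le_of_eq ?_)
    congr 2
    ext S
    simp only [mem_filter]
  · obtain ⟨X0, h0⟩ := densV_upper (kcT_pow D P t) hm hκ ε hε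
    refine ⟨X0, fun X hX => ?_⟩
    have h1 := h0 X hX
    rw [← e X] at h1
    refine (le_of_eq ?_).trans h1
    congr 2
    ext S
    simp only [mem_filter]

end

end Pool.Agent.Lib.MP_1a91b9_ntV
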