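import Pool.Agent.Lib.MP_1a91b9_ntV.DI.Crit7
import Pool.Agent.Lib.MP_1a91b9_ntV.DI.DenG
import Pool.Agent.Lib.MP_1a91b9_ntV.DS.Tot

/-!
# MP_1a91b9_nt (twists over `ℚ(√-7)`), part D: the density of the good sets of primes in every class

`dens7`: for all `d0`, `d1`, `d2` and every class `g` of a finite class group the sets `S` with
`Good7 D S d0 d1 d2` have the density `∏ (1 - 2 ^ (-i))`.
-/

set_option autoImplicit false
set_option linter.unusedSectionVars false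

namespace Pool.Agent.Lib.MP_1a91b9_ntV

open Finset Pool.Agent.Lib.MP_1a91b9_ntH Pool.Agent.Lib.MP_1a91b9_ntQ
open Pool.Agent.Lib.MP_1a91b9_ntQ.Da
open Pool.Agent.Lib.MP_1a91b9_ntV.DS

noncomputable section

/-! ### The numbers of the trivial vectors -/

section

variable {κ Ac Ar : Type} [Fintype Ac] [DecidableEq Ac] [Fintype Ar] [DecidableEq Ar] [Fintype κ]

theorem tcn_one {L : κ → Ac → ZMod 2} {M : Ar → Ac → ZMod 2}
    (h : ∀ x : Ac → ZMod 2, (∀ j, ∑ a, L j a * x a = 0) → (∀ b, ∑ a, M b a * x a = 0) → x = 0) :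
    tcn L M = 1 := by
  classical
  unfold tcn
  rw [card_eq_one]
  refine ⟨0, ?_⟩
  ext x
  rw [mem_filter, mem_singleton]
  constructor
  · exact fun h1 => h x h1.2.1 h1.2.2
  · rintro rfl
    refine ⟨mem_univ _, fun j => ?_, fun b => ?_⟩
    · exact sum_eq_zero fun a _ => mul_zero _
    · exact sum_eq_zero fun a _ => mul_zero _

theorem tcn_two {L : κ → Ac → ZMod 2} {M : Ar → Ac → ZMod 2} {x0 : Ac → ZMod 2} (hne : x0 ≠ 0)
    (h0 : (∀ j, ∑ a, L j a * x0 a = 0) ∧ ∀ b, ∑ a, M b a * x0 a = 0)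
    (h : ∀ x : Ac → ZMod 2, (∀ j, ∑ a, L j a * x a = 0) → (∀ b, ∑ a, M b a * x a = 0) →
      x = 0 ∨ x = x0) : tcn L M = 2 := by
  classical
  unfold tcn
  refine Eq.trans ?_ (card_pair hne.symm)
  congr 1
  ext x
  rw [mem_filter, mem_insert, mem_singleton]
  constructor
  · exact fun h1 => h x h1.2.1 h1.2.2
  · rintro (rfl | rfl)
    · refine ⟨mem_univ _, fun j => ?_, fun b => ?_⟩
      · exact sum_eq_zero fun a _ => mul_zero _
      · exact sum_eq_zero fun a _ => mul_zero _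
    · exact ⟨mem_univ _, h0⟩

theorem trn_eq (L : κ → Ar → ZMod 2) (M : Ar → Ac → ZMod 2) :
    trn L M = tcn L fun a b => M b a := rfl

end

/-- The weight of the reciprocity law. -/
def w7 : Fin 3 → ZMod 2 := ![1, 0, 0]

theorem dot3 (x y z : ZMod 2) (γ : Fin 3 → ZMod 2) :
    ![x, y, z] ⬝ᵥ γ = x * γ 0 + y * γ 1 + z * γ 2 := by
  rw [dotProduct, Fin.sum_univ_three]
  rfl

/-- the class of `-D` at `a` -/
def SA7 (γ : Fin 3 → ZMod 2) (d0 d1 d2 : ZMod 2) : Prop := d1 = 0 ∧ d0 + 1 + d2 = 0 ∧ d2 + γ 1 = 0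

/-- the class of `D` at `1 - a` -/
def SB7 (γ : Fin 3 → ZMod 2) (d0 d1 d2 : ZMod 2) : Prop :=
  d2 = 0 ∧ d0 + d1 + γ 0 = 0 ∧ d1 + γ 2 = 0

variable {d0 d1 d2 : ZMod 2} {γ : Fin 3 → ZMod 2}

theorem opU {x : Option Unit → ZMod 2} : x = 0 ↔ x none = 0 ∧ x (some ()) = 0 := by
  constructor
  · rintro rfl
    exact ⟨rfl, rfl⟩
  · rintro ⟨h1, h2⟩
    funext a
    rcases a with - | a
    · exact h1
    · exact h2

theorem opU2 {x y : Option Unit → ZMod 2} :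
    x = y ↔ x none = y none ∧ x (some ()) = y (some ()) := by
  constructor
  · rintro rfl
    exact ⟨rfl, rfl⟩
  · rintro ⟨h1, h2⟩
    funext a
    rcases a with - | a
    · exact h1
    · exact h2

theorem opE2 {x y : Option Empty → ZMod 2} : x = y ↔ x none = y none := by
  constructor
  · rintro rfl
    rfl
  · intro h1
    funext a
    rcases a with - | a
    · exact h1
    · exact a.elim

theorem sum_opU (f : Option Unit → ZMod 2) : ∑ a, f a = f none + f (some ()) := by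
  rw [Fintype.sum_option, Fintype.sum_unique]

theorem sum_opE (f : Option Empty → ZMod 2) : ∑ a, f a = f none := by
  rw [Fintype.sum_option, univ_eq_empty, sum_empty, add_zero]

/-- Case (G), columns. -/
theorem tcn_G (hB : ¬ SB7 γ d0 d1 d2) : tcn (Lc (PG7 d0 d1 d2 (γ 0)))
    (MMt (PG7 d0 d1 d2 (γ 0)) γ) = 1 := by
  have key : ∀ d0 d1 d2 A B B' u v : ZMod 2, ¬ (d2 = 0 ∧ d0 + d1 + A = 0 ∧ d1 + B' = 0) →
      (A + d0 + d1 + d2) * u + 0 * v = 0 → d1 * u + 1 * v = 0 → d2 * u + 0 * v = 0 →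
      (0 * A + 0 * B + 1 * B') * u + 1 * v = 0 → u = 0 ∧ v = 0 := by decide
  refine tcn_one fun x h1 h2 => ?_
  simp only [sum_opU] at h1 h2
  have b1 : (![0, 0, 1] ⬝ᵥ γ) * x none + 1 * x (some ()) = 0 := h2 (some ())
  rw [dot3] at b1
  rw [opU]
  exact key _ _ _ _ _ _ _ _ hB (h1 0) (h1 1) (h1 2) b1

/-- Case (G), rows. -/
theorem trn_G (hA : ¬ SA7 γ d0 d1 d2) : trn (Lr (PG7 d0 d1 d2 (γ 0)) w7 γ)
    (MMt (PG7 d0 d1 d2 (γ 0)) γ) = 1 := by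
  have key : ∀ d0 d1 d2 A B B' u v : ZMod 2, ¬ (d1 = 0 ∧ d0 + 1 + d2 = 0 ∧ d2 + B = 0) →
      (A + d0 + d1 + d2 + (1 + (1 * A + 0 * B + 0 * B')) * 1) * u + 0 * v = 0 →
      (d1 + (1 + (1 * A + 0 * B + 0 * B')) * 0) * u + 0 * v = 0 →
      (d2 + (1 + (1 * A + 0 * B + 0 * B')) * 0) * u + 1 * v = 0 →
      (0 * A + 1 * B + 0 * B') * u + 1 * v = 0 → u = 0 ∧ v = 0 := by decide
  rw [trn_eq]
  refine tcn_one fun x h1 h2 => ?_
  simp only [sum_opU] at h1 h2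
  have b1 : (![0, 1, 0] ⬝ᵥ γ) * x none + 1 * x (some ()) = 0 := h2 (some ())
  have a0 : (γ 0 + d0 + d1 + d2 + (1 + ![1, 0, 0] ⬝ᵥ γ) * 1) * x none + 0 * x (some ()) = 0 := h1 0
  have a1 : (d1 + (1 + ![1, 0, 0] ⬝ᵥ γ) * 0) * x none + 0 * x (some ()) = 0 := h1 1
  have a2 : (d2 + (1 + ![1, 0, 0] ⬝ᵥ γ) * 0) * x none + 1 * x (some ()) = 0 := h1 2
  rw [dot3] at b1 a0 a1 a2
  rw [opU]
  exact key _ _ _ _ _ _ _ _ hA a0 a1 a2 b1

/-- Case (L), columns. -/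
theorem tcn_L (hB : ¬ SB7 γ d0 d1 d2) : tcn (Lc (PL7 d0 d1 d2 (γ 0)))
    (MMt (PL7 d0 d1 d2 (γ 0)) γ) = 1 := by
  have key : ∀ d0 d1 d2 A B B' u : ZMod 2, ¬ (d2 = 0 ∧ d0 + d1 + A = 0 ∧ d1 + B' = 0) →
      (A + d0 + d1 + d2) * u = 0 → d1 * u = 0 → d2 * u = 0 →
      (0 * A + 0 * B + 1 * B') * u = 0 → (u = 0 ∧ u = 0) := by decide
  refine tcn_one fun x h1 h2 => ?_
  simp only [sum_opE] at h1 h2
  have b1 : (![0, 0, 1] ⬝ᵥ γ) * x none = 0 := h2 (some ())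
  rw [dot3] at b1
  rw [opE2]
  exact (key _ _ _ _ _ _ _ hB (h1 0) (h1 1) (h1 2) b1).1

/-- Case (L), rows. -/
theorem trn_L (hA : SA7 γ d0 d1 d2) : trn (Lr (PL7 d0 d1 d2 (γ 0)) w7 γ)
    (MMt (PL7 d0 d1 d2 (γ 0)) γ) = 2 := by
  have key : ∀ d0 d1 d2 A B B' : ZMod 2, (d1 = 0 ∧ d0 + 1 + d2 = 0 ∧ d2 + B = 0) →
      (A + d0 + d1 + d2 + (1 + (1 * A + 0 * B + 0 * B')) * 1) * 1 + 0 * d2 = 0 ∧
      (d1 + (1 + (1 * A + 0 * B + 0 * B')) * 0) * 1 + 0 * d2 = 0 ∧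
      (d2 + (1 + (1 * A + 0 * B + 0 * B')) * 0) * 1 + 1 * d2 = 0 ∧
      ((A + d0 + d1 + d2) * A + d1 * B + d2 * B') * 1 + (0 * A + 0 * B + 1 * B') * d2 = 0 := by
    decide
  have key2 : ∀ d2 A B B' u v : ZMod 2, (d2 + (1 + (1 * A + 0 * B + 0 * B')) * 0) * u + 1 * v = 0 →
      (u = 0 ∧ v = 0) ∨ (u = 1 ∧ v = d2) := by decide
  obtain ⟨k0, k1, k2, k3⟩ := key d0 d1 d2 (γ 0) (γ 1) (γ 2) hA
  rw [trn_eq]
  refine tcn_two (x0 := fun a => a.elim 1 fun _ => d2) ?_ ⟨?_, ?_⟩ fun x h1 h2 => ?_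
  · intro h
    exact one_ne_zero (congrFun h none)
  · intro j
    rw [sum_opU]
    fin_cases j
    · show (γ 0 + d0 + d1 + d2 + (1 + ![1, 0, 0] ⬝ᵥ γ) * 1) * 1 + 0 * d2 = 0
      rw [dot3]
      exact k0
    · show (d1 + (1 + ![1, 0, 0] ⬝ᵥ γ) * 0) * 1 + 0 * d2 = 0
      rw [dot3]
      exact k1
    · show (d2 + (1 + ![1, 0, 0] ⬝ᵥ γ) * 0) * 1 + 1 * d2 = 0
      rw [dot3]
      exact k2
  · intro a
    rw [sum_opU]
    rcases a with - | a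
    · show (![γ 0 + d0 + d1 + d2, d1, d2] ⬝ᵥ γ) * 1 + (![0, 0, 1] ⬝ᵥ γ) * d2 = 0
      rw [dot3, dot3]
      exact k3
    · exact a.elim
  · simp only [sum_opU] at h1
    have a2 : (d2 + (1 + ![1, 0, 0] ⬝ᵥ γ) * 0) * x none + 1 * x (some ()) = 0 := h1 2
    rw [dot3] at a2
    rcases key2 _ _ _ _ _ _ a2 with h | h
    · exact Or.inl (opU.2 h)
    · exact Or.inr (opU2.2 h)

/-- Case (R), columns. -/
theorem tcn_R (hB : SB7 γ d0 d1 d2) : tcn (Lc (PR7 d0 d1 d2 (γ 0)))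
    (MMt (PR7 d0 d1 d2 (γ 0)) γ) = 2 := by
  have key : ∀ d0 d1 d2 A B B' : ZMod 2, (d2 = 0 ∧ d0 + d1 + A = 0 ∧ d1 + B' = 0) →
      (A + d0 + d1 + d2) * 1 + 0 * d1 = 0 ∧ d1 * 1 + 1 * d1 = 0 ∧ d2 * 1 + 0 * d1 = 0 ∧
      ((A + d0 + d1 + d2) * A + d1 * B + d2 * B') * 1 + (0 * A + 1 * B + 0 * B') * d1 = 0 := by
    decide
  have key2 : ∀ d1 u v : ZMod 2, d1 * u + 1 * v = 0 → (u = 0 ∧ v = 0) ∨ (u = 1 ∧ v = d1) := by
    decide
  obtain ⟨k0, k1, k2, k3⟩ := key d0 d1 d2 (γ 0) (γ 1) (γ 2) hB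
  refine tcn_two (x0 := fun a => a.elim 1 fun _ => d1) ?_ ⟨?_, ?_⟩ fun x h1 h2 => ?_
  · intro h
    exact one_ne_zero (congrFun h none)
  · intro j
    rw [sum_opU]
    fin_cases j
    · exact k0
    · exact k1
    · exact k2
  · intro b
    rw [sum_opU]
    rcases b with - | b
    · show (![γ 0 + d0 + d1 + d2, d1, d2] ⬝ᵥ γ) * 1 + (![0, 1, 0] ⬝ᵥ γ) * d1 = 0
      rw [dot3, dot3]
      exact k3
    · exact b.elim
  · simp only [sum_opU] at h1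
    rcases key2 _ _ _ (h1 1) with h | h
    · exact Or.inl (opU.2 h)
    · exact Or.inr (opU2.2 h)

/-- Case (R), rows. -/
theorem trn_R (hA : ¬ SA7 γ d0 d1 d2) : trn (Lr (PR7 d0 d1 d2 (γ 0)) w7 γ)
    (MMt (PR7 d0 d1 d2 (γ 0)) γ) = 1 := by
  have key : ∀ d0 d1 d2 A B B' u : ZMod 2, ¬ (d1 = 0 ∧ d0 + 1 + d2 = 0 ∧ d2 + B = 0) →
      (A + d0 + d1 + d2 + (1 + (1 * A + 0 * B + 0 * B')) * 1) * u = 0 →
      (d1 + (1 + (1 * A + 0 * B + 0 * B')) * 0) * u = 0 →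
      (d2 + (1 + (1 * A + 0 * B + 0 * B')) * 0) * u = 0 →
      (0 * A + 1 * B + 0 * B') * u = 0 → (u = 0 ∧ u = 0) := by decide
  rw [trn_eq]
  refine tcn_one fun x h1 h2 => ?_
  simp only [sum_opE] at h1 h2
  have b1 : (![0, 1, 0] ⬝ᵥ γ) * x none = 0 := h2 (some ())
  have a0 : (γ 0 + d0 + d1 + d2 + (1 + ![1, 0, 0] ⬝ᵥ γ) * 1) * x none = 0 := h1 0
  have a1 : (d1 + (1 + ![1, 0, 0] ⬝ᵥ γ) * 0) * x none = 0 := h1 1
  have a2 : (d2 + (1 + ![1, 0, 0] ⬝ᵥ γ) * 0) * x none = 0 := h1 2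
  rw [dot3] at b1 a0 a1 a2
  rw [opE2]
  exact (key _ _ _ _ _ _ _ hA a0 a1 a2 b1).1

/-- Case (LR), columns. -/
theorem tcn_N (hA : SA7 γ d0 d1 d2) (hB : SB7 γ d0 d1 d2) :
    tcn (Lc (PN7 d0 d1 d2 (γ 0))) (MMt (PN7 d0 d1 d2 (γ 0)) γ) = 2 := by
  have key : ∀ d0 d1 d2 A B B' : ZMod 2, (d1 = 0 ∧ d0 + 1 + d2 = 0 ∧ d2 + B = 0) →
      (d2 = 0 ∧ d0 + d1 + A = 0 ∧ d1 + B' = 0) →
      (A + d0 + d1 + d2) * 1 = 0 ∧ d1 * 1 = 0 ∧ d2 * 1 = 0 ∧
      ((A + d0 + d1 + d2) * A + d1 * B + d2 * B') * 1 = 0 := by decide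
  have key2 : ∀ u : ZMod 2, u = 0 ∨ u = 1 := by decide
  obtain ⟨k0, k1, k2, k3⟩ := key d0 d1 d2 (γ 0) (γ 1) (γ 2) hA hB
  refine tcn_two (x0 := fun _ => 1) ?_ ⟨?_, ?_⟩ fun x h1 h2 => ?_
  · intro h
    exact one_ne_zero (congrFun h none)
  · intro j
    rw [sum_opE]
    fin_cases j
    · exact k0
    · exact k1
    · exact k2
  · intro b
    rw [sum_opE]
    rcases b with - | b
    · show (![γ 0 + d0 + d1 + d2, d1, d2] ⬝ᵥ γ) * 1 = 0
      rw [dot3]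
      exact k3
    · exact b.elim
  · rcases key2 (x none) with h | h
    · exact Or.inl (opE2.2 h)
    · exact Or.inr (opE2.2 h)

/-- Case (LR), rows. -/
theorem trn_N (hA : SA7 γ d0 d1 d2) (hB : SB7 γ d0 d1 d2) :
    trn (Lr (PN7 d0 d1 d2 (γ 0)) w7 γ) (MMt (PN7 d0 d1 d2 (γ 0)) γ) = 2 := by
  have key : ∀ d0 d1 d2 A B B' : ZMod 2, (d1 = 0 ∧ d0 + 1 + d2 = 0 ∧ d2 + B = 0) →
      (d2 = 0 ∧ d0 + d1 + A = 0 ∧ d1 + B' = 0) →
      (A + d0 + d1 + d2 + (1 + (1 * A + 0 * B + 0 * B')) * 1) * 1 = 0 ∧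
      (d1 + (1 + (1 * A + 0 * B + 0 * B')) * 0) * 1 = 0 ∧
      (d2 + (1 + (1 * A + 0 * B + 0 * B')) * 0) * 1 = 0 ∧
      ((A + d0 + d1 + d2) * A + d1 * B + d2 * B') * 1 = 0 := by decide
  have key2 : ∀ u : ZMod 2, u = 0 ∨ u = 1 := by decide
  obtain ⟨k0, k1, k2, k3⟩ := key d0 d1 d2 (γ 0) (γ 1) (γ 2) hA hB
  rw [trn_eq]
  refine tcn_two (x0 := fun _ => 1) ?_ ⟨?_, ?_⟩ fun x h1 h2 => ?_
  · intro h
    exact one_ne_zero (congrFun h none)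
  · intro j
    rw [sum_opE]
    fin_cases j
    · show (γ 0 + d0 + d1 + d2 + (1 + ![1, 0, 0] ⬝ᵥ γ) * 1) * 1 = 0
      rw [dot3]
      exact k0
    · show (d1 + (1 + ![1, 0, 0] ⬝ᵥ γ) * 0) * 1 = 0
      rw [dot3]
      exact k1
    · show (d2 + (1 + ![1, 0, 0] ⬝ᵥ γ) * 0) * 1 = 0
      rw [dot3]
      exact k2
  · intro b
    rw [sum_opE]
    rcases b with - | b
    · show (![γ 0 + d0 + d1 + d2, d1, d2] ⬝ᵥ γ) * 1 = 0
      rw [dot3]
      exact k3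
    · exact b.elim
  · rcases key2 (x none) with h | h
    · exact Or.inl (opE2.2 h)
    · exact Or.inr (opE2.2 h)

/-! ### The densities -/

theorem w7_ne : w7 ≠ 0 := fun h => one_ne_zero (congrFun h 0)

theorem TGe_of {E : Type} [Fintype E] [DecidableEq E] {F : Type} [Fintype F] [DecidableEq F]
    {P : BD (Fin 3) E F} {t : ℕ} (h1 : tcn (Lc P) (MMt P γ) = 2 ^ t)
    (h2 : 2 ^ Fintype.card E * trn (Lr P w7 γ) (MMt P γ) =
      2 ^ Fintype.card F * tcn (Lc P) (MMt P γ)) : TGe P w7 γ t := by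
  intro k _
  rw [TG_eq k P w7_ne γ h2, h1]
  push_cast
  ring

section

variable {ι : Type} [DecidableEq ι] [PS ι] {G : Type} [AddCommGroup G] [Fintype G]

/-- **The density of the good sets of primes in every class.** -/
theorem dens7 {D : Dat2 ι (Fin 3)} (hD : OKt D w7) (C : Cl2 D G) (h3 : C.H3)
    (d0 d1 d2 : ZMod 2) (g : G) : TwoV C g fun S => Good7 D S d0 d1 d2 := by
  have tw : Tw7 D := by
    intro p q hpq
    have e : ∀ q, D.dg w7 q = D.a q 0 := by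
      intro q
      rw [w7, dg_vec3]
      ring
    rw [hD.tw p q hpq, e, e]
  have hγ : ∀ S : Finset ι, ∑ q ∈ S, C.cl q = g → ∀ j, ∑ q ∈ S, D.a q j = C.A j g := by
    intro S hS j
    rw [← hS, map_sum]
    exact sum_congr rfl fun q _ => C.ha q j
  obtain ⟨γ, hγ'⟩ : ∃ γ : Fin 3 → ZMod 2, γ = fun j => C.A j g := ⟨_, rfl⟩
  have hs : ∀ S : Finset ι, ∑ q ∈ S, C.cl q = g → ∀ j, ∑ q ∈ S, D.a q j = γ j := by
    intro S hS j
    rw [hγ S hS j, hγ']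
  have hA : ∀ S : Finset ι, ∑ q ∈ S, C.cl q = g → (SqA7 D S d0 d1 d2 ↔ SA7 γ d0 d1 d2) := by
    intro S hS
    unfold SqA7 SA7
    rw [hs S hS 1]
  have hB : ∀ S : Finset ι, ∑ q ∈ S, C.cl q = g → (SqB7 D S d0 d1 d2 ↔ SB7 γ d0 d1 d2) := by
    intro S hS
    unfold SqB7 SB7
    rw [hs S hS 0, hs S hS 2]
  by_cases cA : SA7 γ d0 d1 d2
  · by_cases cB : SB7 γ d0 d1 d2
    · -- (LR)
      have hT : TGe (PN7 d0 d1 d2 (γ 0)) w7 γ 1 := TGe_of (by rw [tcn_N cA cB, pow_one])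
        (by rw [tcn_N cA cB, trn_N cA cB])
      have h := denG hD C h3 (PN7 d0 d1 d2 (γ 0)) g (t := 1) (by rw [← hγ']; exact hT)
        fun S hS => by
          have h1 := two_le_N tw ((hA S hS).2 cA) ((hB S hS).2 cB)
          rw [hs S hS 0] at h1
          exact h1
      refine h.congr_ne fun S hne hS => ?_
      have h1 := kM_N tw (nonempty_iff_ne_empty.2 hne) ((hA S hS).2 cA) ((hB S hS).2 cB)
      rw [hs S hS 0] at h1
      rw [pow_one]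
      exact h1.symm
    · -- (L)
      have hT : TGe (PL7 d0 d1 d2 (γ 0)) w7 γ 0 := TGe_of (by rw [tcn_L cB, pow_zero])
        (by rw [tcn_L cB, trn_L cA]; rfl)
      have h := denG hD C h3 (PL7 d0 d1 d2 (γ 0)) g (t := 0) (by rw [← hγ']; exact hT)
        fun S hS => by
          obtain ⟨r, hr⟩ := exists_kM_pow D (PL7 d0 d1 d2 (γ 0)) S
          rw [hr]
          exact Nat.pow_le_pow_right (by norm_num) (Nat.zero_le r)
      refine h.congr fun S hS => ?_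
      have h1 := kM_L tw ((hA S hS).2 cA) fun h => cB ((hB S hS).1 h)
      rw [hs S hS 0] at h1
      rw [pow_zero]
      exact h1.symm
  · by_cases cB : SB7 γ d0 d1 d2
    · -- (R)
      have hT : TGe (PR7 d0 d1 d2 (γ 0)) w7 γ 1 := TGe_of (by rw [tcn_R cB, pow_one])
        (by rw [tcn_R cB, trn_R cA]; rfl)
      have h := denG hD C h3 (PR7 d0 d1 d2 (γ 0)) g (t := 1) (by rw [← hγ']; exact hT)
        fun S hS => by
          have h1 := two_le_R tw ((hB S hS).2 cB)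
          rw [hs S hS 0] at h1
          exact h1
      refine h.congr_ne fun S hne hS => ?_
      have h1 := kM_R tw (nonempty_iff_ne_empty.2 hne) (fun h => cA ((hA S hS).1 h))
        ((hB S hS).2 cB)
      rw [hs S hS 0] at h1
      rw [pow_one]
      exact h1.symm
    · -- (G)
      have hT : TGe (PG7 d0 d1 d2 (γ 0)) w7 γ 0 := TGe_of (by rw [tcn_G cB, pow_zero])
        (by rw [tcn_G cB, trn_G cA])
      have h := denG hD C h3 (PG7 d0 d1 d2 (γ 0)) g (t := 0) (by rw [← hγ']; exact hT)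
        fun S hS => by
          obtain ⟨r, hr⟩ := exists_kM_pow D (PG7 d0 d1 d2 (γ 0)) S
          rw [hr]
          exact Nat.pow_le_pow_right (by norm_num) (Nat.zero_le r)
      refine h.congr fun S hS => ?_
      have h1 := kM_G tw (fun h => cA ((hA S hS).1 h)) fun h => cB ((hB S hS).1 h)
      rw [hs S hS 0] at h1
      rw [pow_zero]
      exact h1.symm

end

end

end Pool.Agent.Lib.MP_1a91b9_ntV
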