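import Pool.Agent.Lib.MP_1a91b9_ntV.D.MatN

/-!
# MP_1a91b9_nt (twists over `ℚ(√-7)`), part D: the criterion and the sizes of the kernels

`Good7 D S d0 d1 d2`: the criterion of the Selmer side for `(-1)^d0 a^d1 a'^d2 ∏ (q ∈ S) q`. In each of
the four cases it says that the kernel of a matrix `NM` is as small as possible.
-/

set_option autoImplicit false
set_option linter.unusedSectionVars false

namespace Pool.Agent.Lib.MP_1a91b9_ntV

open Finset Pool.Agent.Lib.MP_1a91b9_ntH Pool.Agent.Lib.MP_1a91b9_ntQ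
open Pool.Agent.Lib.MP_1a91b9_ntQ.Da

noncomputable section

/-! ### Small kernels -/

section

variable {ι : Type} [DecidableEq ι] {κ : Type} [Fintype κ] {E : Type} [Fintype E] [DecidableEq E]
  {F : Type} [Fintype F] [DecidableEq F]

theorem kM_one (D : Dat2 ι κ) (P : BD κ E F) (S : Finset ι) :
    kM D P S = 1 ↔ ∀ v, (NM D P S).mulVec v = 0 → v = 0 := by
  unfold kM
  rw [Fintype.card_eq_one_iff]
  constructor
  · rintro ⟨v0, h0⟩ v hv
    have h1 := h0 ⟨v, hv⟩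
    have h2 := h0 ⟨0, Matrix.mulVec_zero _⟩
    exact congrArg Subtype.val (h1.trans h2.symm)
  · intro h
    exact ⟨⟨0, Matrix.mulVec_zero _⟩, fun v => Subtype.ext (h v.1 v.2)⟩

theorem kM_two (D : Dat2 ι κ) (P : BD κ E F) (S : Finset ι) {v0 : S ⊕ E → ZMod 2}
    (h0 : (NM D P S).mulVec v0 = 0) (hne : v0 ≠ 0) :
    kM D P S = 2 ↔ ∀ v, (NM D P S).mulVec v = 0 → v = 0 ∨ v = v0 := by
  unfold kM
  rw [Fintype.card_subtype]
  have h1 : ({0, v0} : Finset (S ⊕ E → ZMod 2)) ⊆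
      univ.filter fun v => (NM D P S).mulVec v = 0 := by
    intro v hv
    rw [mem_insert, mem_singleton] at hv
    rw [mem_filter]
    refine ⟨mem_univ _, ?_⟩
    rcases hv with rfl | rfl
    · exact Matrix.mulVec_zero _
    · exact h0
  have h2 : ({0, v0} : Finset (S ⊕ E → ZMod 2)).card = 2 := card_pair hne.symm
  constructor
  · intro h v hv
    have h3 := eq_of_subset_of_card_le h1 (by rw [h, h2])
    have h4 : v ∈ univ.filter fun v => (NM D P S).mulVec v = 0 := mem_filter.2 ⟨mem_univ _, hv⟩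
    rw [← h3, mem_insert, mem_singleton] at h4
    exact h4
  · intro h
    refine Eq.trans ?_ h2
    congr 1
    ext v
    rw [mem_filter, mem_insert, mem_singleton]
    exact ⟨fun h3 => h v h3.2, fun h3 => (mem_filter.1 (h1 (by
      rw [mem_insert, mem_singleton]
      exact h3)))⟩

end

theorem two_le_kM {ι : Type} [DecidableEq ι] {κ : Type} [Fintype κ] {E : Type} [Fintype E]
    [DecidableEq E] {F : Type} [Fintype F] [DecidableEq F] (D : Dat2 ι κ) (P : BD κ E F)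
    (S : Finset ι) {v0 : S ⊕ E → ZMod 2} (h0 : (NM D P S).mulVec v0 = 0) (hne : v0 ≠ 0) :
    2 ≤ kM D P S := by
  unfold kM
  rw [Fintype.card_subtype]
  refine le_trans (le_of_eq (card_pair hne.symm).symm) (card_le_card fun v hv => ?_)
  rw [mem_insert, mem_singleton] at hv
  rw [mem_filter]
  refine ⟨mem_univ _, ?_⟩
  rcases hv with rfl | rfl
  · exact Matrix.mulVec_zero _
  · exact h0

variable {ι : Type} [DecidableEq ι] (D : Dat2 ι (Fin 3))

/-! ### The criterion -/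

/-- the diagonal entry without the sum of symbols -/
def wt7 (d0 d1 d2 : ZMod 2) (i : ι) : ZMod 2 :=
  d0 * D.a i 0 + d1 * (D.a i 1 + D.a i 0) + d2 * (D.a i 2 + D.a i 0)

/-- the row `i` of the matrix applied to `x` -/
def Nx7 (S : Finset ι) (d0 d1 d2 : ZMod 2) (x : ι → ZMod 2) (i : ι) : ZMod 2 :=
  ∑ j ∈ S.erase i, D.s i j * x j +
    (∑ j ∈ S.erase i, D.s j i + wt7 D d0 d1 d2 i + D.a i 0) * x i

/-- `-D` is a square at `a` (in bits) -/
def SqA7 (S : Finset ι) (d0 d1 d2 : ZMod 2) : Prop :=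
  d1 = 0 ∧ d0 + 1 + d2 = 0 ∧ d2 + ∑ i ∈ S, D.a i 1 = 0

/-- `D` is a square at `1 - a` (in bits) -/
def SqB7 (S : Finset ι) (d0 d1 d2 : ZMod 2) : Prop :=
  d2 = 0 ∧ d0 + d1 + ∑ i ∈ S, D.a i 0 = 0 ∧ d1 + ∑ i ∈ S, D.a i 2 = 0

/-- the linear system -/
def Ker7 (S : Finset ι) (d0 d1 d2 : ZMod 2) (x : ι → ZMod 2) (x1 : ZMod 2) : Prop :=
  (∀ i ∈ S, Nx7 D S d0 d1 d2 x i + D.a i 1 * x1 = 0) ∧
    (¬ SqB7 D S d0 d1 d2 → x1 = ∑ i ∈ S, D.a i 2 * x i) ∧ (SqA7 D S d0 d1 d2 → x1 = 0)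

/-- **The criterion.** -/
def Good7 (S : Finset ι) (d0 d1 d2 : ZMod 2) : Prop :=
  ∀ (x : ι → ZMod 2) (x1 : ZMod 2), Ker7 D S d0 d1 d2 x x1 →
    ((∀ i ∈ S, x i = 0) ∧ x1 = 0) ∨ ((∀ i ∈ S, x i = 1) ∧ x1 = d1 ∧ SqB7 D S d0 d1 d2)

/-! ### The matrices -/

/-- the class vector of the diagonal -/
def kap7 (d0 d1 d2 A : ZMod 2) : Fin 3 → ZMod 2 := ![A + d0 + d1 + d2, d1, d2]

/-- the matrix of the case (G) -/
def PG7 (d0 d1 d2 A : ZMod 2) : BD (Fin 3) Unit Unit where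
  kap := kap7 d0 d1 d2 A
  be _ := ![0, 1, 0]
  bf _ := ![0, 0, 1]
  R _ _ := 1

/-- the matrix of the case (L) -/
def PL7 (d0 d1 d2 A : ZMod 2) : BD (Fin 3) Empty Unit where
  kap := kap7 d0 d1 d2 A
  be e := e.elim
  bf _ := ![0, 0, 1]
  R _ e := e.elim

/-- the matrix of the case (R) -/
def PR7 (d0 d1 d2 A : ZMod 2) : BD (Fin 3) Unit Empty where
  kap := kap7 d0 d1 d2 A
  be _ := ![0, 1, 0]
  bf f := f.elim
  R f _ := f.elim

/-- the matrix of the case (LR) -/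
def PN7 (d0 d1 d2 A : ZMod 2) : BD (Fin 3) Empty Empty where
  kap := kap7 d0 d1 d2 A
  be e := e.elim
  bf f := f.elim
  R f _ := f.elim

theorem dg_vec3 (x y z : ZMod 2) (q : ι) :
    D.dg ![x, y, z] q = x * D.a q 0 + y * D.a q 1 + z * D.a q 2 := by
  rw [Dat2.dg, Fin.sum_univ_three]
  rfl

variable {D}

/-- the reciprocity law -/
def Tw7 (D : Dat2 ι (Fin 3)) : Prop :=
  ∀ p q : ι, p ≠ q → D.s p q + D.s q p = D.a p 0 * D.a q 0

variable {S : Finset ι} {d0 d1 d2 : ZMod 2}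

theorem Nx7_eq (tw : Tw7 D) (x : ι → ZMod 2) (i : S) :
    D.dg (kap7 d0 d1 d2 (∑ i ∈ S, D.a i 0)) i * x i + ∑ l : S, D.s i l * (x i + x l) =
      Nx7 D S d0 d1 d2 x i := by
  have h1 : ∑ l : S, D.s i l * (x i + x l) = ∑ l ∈ S.erase i, D.s i l * (x i + x l) := by
    have h2 : ∑ l : S, D.s i l * (x i + x l) = ∑ l ∈ S, D.s i l * (x i + x l) :=
      sum_coe_sort S fun l => D.s i l * (x i + x l)
    rw [h2, ← add_sum_erase S _ i.2, CharTwo.add_self_eq_zero, mul_zero, zero_add]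
  have h3 : ∑ j ∈ S.erase i, D.s j i = ∑ j ∈ S.erase i, D.s i j +
      D.a i 0 * ∑ j ∈ S.erase (i : ι), D.a j 0 := by
    rw [mul_sum, ← sum_add_distrib]
    refine sum_congr rfl fun j hj => ?_
    have h4 := tw i j (ne_of_mem_erase hj).symm
    rw [← h4, ← add_assoc, CharTwo.add_self_eq_zero, zero_add]
  have h5 : ∑ i ∈ S, D.a i 0 = D.a i 0 + ∑ j ∈ S.erase (i : ι), D.a j 0 :=
    (add_sum_erase S _ i.2).symm
  rw [h1, Nx7, h3, h5, kap7, dg_vec3, wt7]
  simp only [mul_add, sum_add_distrib, ← sum_mul]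
  have key : ∀ a : ZMod 2, a * a = a := by decide
  linear_combination x i * key (D.a i 0)

/-! ### The four cases -/

/-- the vector on `S` and the border -/
def vx (S : Finset ι) {E : Type} (x : ι → ZMod 2) (z : E → ZMod 2) : S ⊕ E → ZMod 2 :=
  Sum.elim (fun i => x i) z

theorem exists_vx {E : Type} (v : S ⊕ E → ZMod 2) :
    ∃ (x : ι → ZMod 2) (z : E → ZMod 2), v = vx S x z := by
  classical
  refine ⟨fun i => if h : i ∈ S then v (Sum.inl ⟨i, h⟩) else 0, fun e => v (Sum.inr e), ?_⟩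
  funext i
  rcases i with i | e
  · show v (Sum.inl i) = if h : (i : ι) ∈ S then v (Sum.inl ⟨i, h⟩) else 0
    rw [dif_pos i.2]
  · rfl

theorem vx_zero_iff {E : Type} {x : ι → ZMod 2} {z : E → ZMod 2} :
    vx S x z = 0 ↔ (∀ i ∈ S, x i = 0) ∧ ∀ e, z e = 0 := by
  constructor
  · exact fun h => ⟨fun i hi => congrFun h (Sum.inl ⟨i, hi⟩), fun e => congrFun h (Sum.inr e)⟩
  · rintro ⟨h1, h2⟩
    funext i
    rcases i with i | e
    · exact h1 i i.2
    · exact h2 e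

theorem vx_eq_iff {E : Type} {x y : ι → ZMod 2} {z w : E → ZMod 2} :
    vx S x z = vx S y w ↔ (∀ i ∈ S, x i = y i) ∧ ∀ e, z e = w e := by
  constructor
  · exact fun h => ⟨fun i hi => congrFun h (Sum.inl ⟨i, hi⟩), fun e => congrFun h (Sum.inr e)⟩
  · rintro ⟨h1, h2⟩
    funext i
    rcases i with i | e
    · exact h1 i i.2
    · exact h2 e

section

variable {E : Type} [Fintype E] [DecidableEq E] {F : Type} [Fintype F] [DecidableEq F]

theorem NM_vx (tw : Tw7 D) (P : BD (Fin 3) E F) (hP : P.kap = kap7 d0 d1 d2 (∑ i ∈ S, D.a i 0))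
    (x : ι → ZMod 2) (z : E → ZMod 2) : (NM D P S).mulVec (vx S x z) = 0 ↔
      (∀ i ∈ S, Nx7 D S d0 d1 d2 x i + ∑ e, D.dg (P.be e) i * z e = 0) ∧
        ∀ f, ∑ i ∈ S, D.dg (P.bf f) i * x i + ∑ e, P.R f e * z e = 0 := by
  have h1 : ∀ i : S, (NM D P S).mulVec (vx S x z) (Sum.inl i) =
      Nx7 D S d0 d1 d2 x i + ∑ e, D.dg (P.be e) i * z e := by
    intro i
    rw [NM_inl, hP, ← Nx7_eq tw x i]
    rfl
  have h2 : ∀ f : F, (NM D P S).mulVec (vx S x z) (Sum.inr f) =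
      ∑ i ∈ S, D.dg (P.bf f) i * x i + ∑ e, P.R f e * z e := by
    intro f
    rw [NM_inr, ← sum_coe_sort S fun i => D.dg (P.bf f) i * x i]
    rfl
  constructor
  · intro h
    refine ⟨fun i hi => ?_, fun f => ?_⟩
    · rw [← h1 ⟨i, hi⟩, h]
      rfl
    · rw [← h2 f, h]
      rfl
  · rintro ⟨h3, h4⟩
    funext i
    rcases i with i | f
    · rw [h1, h3 i i.2]
      rfl
    · rw [h2, h4 f]
      rfl

end

theorem eq_iff_add {x y : ZMod 2} : x = y ↔ y + x = 0 := by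
  revert x y
  decide

/-- **Case (G).** -/
theorem kM_G (tw : Tw7 D) (hA : ¬ SqA7 D S d0 d1 d2) (hB : ¬ SqB7 D S d0 d1 d2) :
    kM D (PG7 d0 d1 d2 (∑ i ∈ S, D.a i 0)) S = 1 ↔ Good7 D S d0 d1 d2 := by
  have hk : ∀ (x : ι → ZMod 2) (z : Unit → ZMod 2),
      (NM D (PG7 d0 d1 d2 (∑ i ∈ S, D.a i 0)) S).mulVec (vx S x z) = 0 ↔
        Ker7 D S d0 d1 d2 x (z ()) := by
    intro x z
    rw [NM_vx tw _ rfl]
    unfold Ker7
    constructor
    · rintro ⟨h1, h2⟩
      refine ⟨fun i hi => ?_, fun _ => ?_, fun h => absurd h hA⟩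
      · have h3 := h1 i hi
        rw [Fintype.sum_unique] at h3
        show _ + D.a i 1 * z () = 0
        have h4 : D.dg ((PG7 d0 d1 d2 (∑ i ∈ S, D.a i 0)).be default) i = D.a i 1 := by
          show D.dg ![0, 1, 0] i = _
          rw [dg_vec3]
          ring
        rw [h4] at h3
        exact h3
      · have h3 := h2 ()
        rw [Fintype.sum_unique] at h3
        rw [eq_iff_add, ← h3]
        congr 1
        · refine sum_congr rfl fun i _ => ?_
          congr 1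
          show _ = D.dg ![0, 0, 1] i
          rw [dg_vec3]
          ring
        · show z () = 1 * z ()
          rw [one_mul]
    · rintro ⟨h1, h2, -⟩
      refine ⟨fun i hi => ?_, fun f => ?_⟩
      · rw [Fintype.sum_unique]
        have h4 : D.dg ((PG7 d0 d1 d2 (∑ i ∈ S, D.a i 0)).be default) i = D.a i 1 := by
          show D.dg ![0, 1, 0] i = _
          rw [dg_vec3]
          ring
        rw [h4]
        exact h1 i hi
      · rw [Fintype.sum_unique, ← eq_iff_add.1 (h2 hB)]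
        congr 1
        · refine sum_congr rfl fun i _ => ?_
          congr 1
          show D.dg ![0, 0, 1] i = _
          rw [dg_vec3]
          ring
        · show 1 * z () = z ()
          rw [one_mul]
  rw [kM_one]
  constructor
  · intro h x x1 hx
    have h1 := h _ ((hk x fun _ => x1).2 hx)
    rw [vx_zero_iff] at h1
    exact Or.inl ⟨h1.1, h1.2 ()⟩
  · intro h v hv
    obtain ⟨x, z, rfl⟩ := exists_vx v
    rcases h x (z ()) ((hk x z).1 hv) with h1 | h1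
    · exact vx_zero_iff.2 ⟨h1.1, fun _ => h1.2⟩
    · exact absurd h1.2.2 hB

/-- **Case (L).** -/
theorem kM_L (tw : Tw7 D) (hA : SqA7 D S d0 d1 d2) (hB : ¬ SqB7 D S d0 d1 d2) :
    kM D (PL7 d0 d1 d2 (∑ i ∈ S, D.a i 0)) S = 1 ↔ Good7 D S d0 d1 d2 := by
  have hk : ∀ (x : ι → ZMod 2) (z : Empty → ZMod 2),
      (NM D (PL7 d0 d1 d2 (∑ i ∈ S, D.a i 0)) S).mulVec (vx S x z) = 0 ↔
        Ker7 D S d0 d1 d2 x 0 := by
    intro x z
    rw [NM_vx tw _ rfl]
    unfold Ker7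
    have h4 : ∀ i : ι, D.dg ((PL7 d0 d1 d2 (∑ i ∈ S, D.a i 0)).bf ()) i = D.a i 2 := by
      intro i
      show D.dg ![0, 0, 1] i = _
      rw [dg_vec3]
      ring
    constructor
    · rintro ⟨h1, h2⟩
      refine ⟨fun i hi => ?_, fun _ => ?_, fun h => rfl⟩
      · have h3 := h1 i hi
        rw [univ_eq_empty, sum_empty] at h3
        rw [mul_zero]
        exact h3
      · have h3 := h2 ()
        rw [univ_eq_empty, sum_empty, add_zero] at h3
        rw [← h3]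
        exact sum_congr rfl fun i _ => by rw [h4]
    · rintro ⟨h1, h2, -⟩
      refine ⟨fun i hi => ?_, fun f => ?_⟩
      · rw [univ_eq_empty, sum_empty]
        have h3 := h1 i hi
        rw [mul_zero] at h3
        exact h3
      · rw [univ_eq_empty, sum_empty, add_zero, h2 hB]
        exact sum_congr rfl fun i _ => by rw [← h4]
  rw [kM_one]
  constructor
  · intro h x x1 hx
    obtain rfl : x1 = 0 := hx.2.2 hA
    have h1 := h _ ((hk x fun e => e.elim).2 hx)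
    rw [vx_zero_iff] at h1
    exact Or.inl ⟨h1.1, rfl⟩
  · intro h v hv
    obtain ⟨x, z, rfl⟩ := exists_vx v
    rcases h x 0 ((hk x z).1 hv) with h1 | h1
    · exact vx_zero_iff.2 ⟨h1.1, fun e => e.elim⟩
    · exact absurd h1.2.2 hB

/-- the row sums -/
theorem Nx7_one (tw : Tw7 D) {i : ι} (hi : i ∈ S) : Nx7 D S d0 d1 d2 (fun _ => 1) i =
    D.dg (kap7 d0 d1 d2 (∑ i ∈ S, D.a i 0)) i := by
  have h1 := Nx7_eq (d0 := d0) (d1 := d1) (d2 := d2) tw (fun _ => 1) ⟨i, hi⟩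
  have h2 : ∑ l : S, D.s i l * ((1 : ZMod 2) + 1) = 0 :=
    sum_eq_zero fun l _ => by rw [CharTwo.add_self_eq_zero, mul_zero]
  rw [← h1, mul_one]
  exact (congrArg (fun t => D.dg (kap7 d0 d1 d2 (∑ i ∈ S, D.a i 0)) i + t) h2).trans
    (add_zero _)

theorem NM_R (tw : Tw7 D) (x : ι → ZMod 2) (z : Unit → ZMod 2) :
    (NM D (PR7 d0 d1 d2 (∑ i ∈ S, D.a i 0)) S).mulVec (vx S x z) = 0 ↔
      ∀ i ∈ S, Nx7 D S d0 d1 d2 x i + D.a i 1 * z () = 0 := by
  have h4 : ∀ i : ι, D.dg ((PR7 d0 d1 d2 (∑ i ∈ S, D.a i 0)).be ()) i = D.a i 1 := by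
    intro i
    show D.dg ![0, 1, 0] i = _
    rw [dg_vec3]
    ring
  rw [NM_vx tw _ rfl]
  constructor
  · rintro ⟨h1, h2⟩ i hi
    have h3 := h1 i hi
    rw [Fintype.sum_unique] at h3
    rw [← h4]
    exact h3
  · intro h1
    refine ⟨fun i hi => ?_, fun f => f.elim⟩
    rw [Fintype.sum_unique]
    have h3 := h1 i hi
    rw [← h4] at h3
    exact h3

/-- **Case (R).** -/
theorem kM_R (tw : Tw7 D) (hS : S.Nonempty) (hA : ¬ SqA7 D S d0 d1 d2)
    (hB : SqB7 D S d0 d1 d2) :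
    kM D (PR7 d0 d1 d2 (∑ i ∈ S, D.a i 0)) S = 2 ↔ Good7 D S d0 d1 d2 := by
  have h4 : ∀ i : ι, D.dg ((PR7 d0 d1 d2 (∑ i ∈ S, D.a i 0)).be ()) i = D.a i 1 := by
    intro i
    show D.dg ![0, 1, 0] i = _
    rw [dg_vec3]
    ring
  have hk : ∀ (x : ι → ZMod 2) (z : Unit → ZMod 2),
      (NM D (PR7 d0 d1 d2 (∑ i ∈ S, D.a i 0)) S).mulVec (vx S x z) = 0 ↔
        Ker7 D S d0 d1 d2 x (z ()) := by
    intro x z
    rw [NM_vx tw _ rfl]
    unfold Ker7
    constructor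
    · rintro ⟨h1, h2⟩
      refine ⟨fun i hi => ?_, fun h => absurd hB h, fun h => absurd h hA⟩
      have h3 := h1 i hi
      rw [Fintype.sum_unique] at h3
      rw [← h4]
      exact h3
    · rintro ⟨h1, -, -⟩
      refine ⟨fun i hi => ?_, fun f => f.elim⟩
      rw [Fintype.sum_unique]
      have h3 := h1 i hi
      rw [← h4] at h3
      exact h3
  have h0 : (NM D (PR7 d0 d1 d2 (∑ i ∈ S, D.a i 0)) S).mulVec
      (vx S (fun _ => 1) fun _ => d1) = 0 := by
    rw [hk]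
    refine ⟨fun i hi => ?_, fun h => absurd hB h, fun h => absurd h hA⟩
    obtain ⟨b1, b2, -⟩ := hB
    rw [Nx7_one tw hi, kap7, dg_vec3, b1]
    have key : ∀ x y z : ZMod 2, x + y = 0 → (z + x + y + 0) = z := by decide
    have e : ∑ i ∈ S, D.a i 0 + d0 + d1 + 0 = 0 := by linear_combination b2
    rw [e]
    have key : ∀ x y : ZMod 2, 0 * x + y + 0 * x + y = 0 := by decide
    have h5 : ∀ x y z t : ZMod 2, 0 * x + y * z + 0 * t + z * y = 0 := by decide
    exact h5 _ _ _ _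
  have hne : vx S (fun _ => 1) (fun _ : Unit => d1) ≠ 0 := by
    obtain ⟨i, hi⟩ := hS
    intro h
    have h1 := (vx_zero_iff.1 h).1 i hi
    exact one_ne_zero h1
  rw [kM_two D _ S h0 hne]
  constructor
  · intro h x x1 hx
    rcases h _ ((hk x fun _ => x1).2 hx) with h1 | h1
    · rw [vx_zero_iff] at h1
      exact Or.inl ⟨h1.1, h1.2 ()⟩
    · rw [vx_eq_iff] at h1
      exact Or.inr ⟨h1.1, h1.2 (), hB⟩
  · intro h v hv
    obtain ⟨x, z, rfl⟩ := exists_vx v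
    rcases h x (z ()) ((hk x z).1 hv) with h1 | h1
    · exact Or.inl (vx_zero_iff.2 ⟨h1.1, fun _ => h1.2⟩)
    · exact Or.inr (vx_eq_iff.2 ⟨h1.1, fun _ => h1.2.1⟩)

/-- **Case (LR).** -/
theorem kM_N (tw : Tw7 D) (hS : S.Nonempty) (hA : SqA7 D S d0 d1 d2) (hB : SqB7 D S d0 d1 d2) :
    kM D (PN7 d0 d1 d2 (∑ i ∈ S, D.a i 0)) S = 2 ↔ Good7 D S d0 d1 d2 := by
  have hk : ∀ (x : ι → ZMod 2) (z : Empty → ZMod 2),
      (NM D (PN7 d0 d1 d2 (∑ i ∈ S, D.a i 0)) S).mulVec (vx S x z) = 0 ↔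
        Ker7 D S d0 d1 d2 x 0 := by
    intro x z
    rw [NM_vx tw _ rfl]
    unfold Ker7
    constructor
    · rintro ⟨h1, h2⟩
      refine ⟨fun i hi => ?_, fun h => absurd hB h, fun _ => rfl⟩
      have h3 := h1 i hi
      rw [univ_eq_empty, sum_empty] at h3
      rw [mul_zero]
      exact h3
    · rintro ⟨h1, -, -⟩
      refine ⟨fun i hi => ?_, fun f => f.elim⟩
      rw [univ_eq_empty, sum_empty]
      have h3 := h1 i hi
      rw [mul_zero] at h3
      exact h3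
  have h0 : (NM D (PN7 d0 d1 d2 (∑ i ∈ S, D.a i 0)) S).mulVec
      (vx S (fun _ => 1) fun e => e.elim) = 0 := by
    rw [hk]
    refine ⟨fun i hi => ?_, fun h => absurd hB h, fun _ => rfl⟩
    obtain ⟨a1, a2, -⟩ := hA
    obtain ⟨b1, b2, -⟩ := hB
    rw [Nx7_one tw hi, kap7, dg_vec3, b1, a1]
    rw [a1] at b2
    have e : ∑ i ∈ S, D.a i 0 + d0 + 0 + 0 = 0 := by linear_combination b2
    rw [e]
    ring
  have hne : vx S (fun _ => 1) (fun e : Empty => e.elim) ≠ (0 : S ⊕ Empty → ZMod 2) := by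
    obtain ⟨i, hi⟩ := hS
    intro h
    have h1 := (vx_zero_iff.1 h).1 i hi
    exact one_ne_zero h1
  rw [kM_two D _ S h0 hne]
  constructor
  · intro h x x1 hx
    obtain rfl : x1 = 0 := hx.2.2 hA
    rcases h _ ((hk x fun e => e.elim).2 hx) with h1 | h1
    · rw [vx_zero_iff] at h1
      exact Or.inl ⟨h1.1, rfl⟩
    · rw [vx_eq_iff] at h1
      exact Or.inr ⟨h1.1, hA.1.symm, hB⟩
  · intro h v hv
    obtain ⟨x, z, rfl⟩ := exists_vx v
    rcases h x 0 ((hk x z).1 hv) with h1 | h1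
    · exact Or.inl (vx_zero_iff.2 ⟨h1.1, fun e => e.elim⟩)
    · exact Or.inr (vx_eq_iff.2 ⟨h1.1, fun e => e.elim⟩)

/-- The kernel has at least two elements in the case (R). -/
theorem two_le_R (tw : Tw7 D) (hB : SqB7 D S d0 d1 d2) :
    2 ≤ kM D (PR7 d0 d1 d2 (∑ i ∈ S, D.a i 0)) S := by
  by_cases hS : S.Nonempty
  · refine two_le_kM D _ S (v0 := vx S (fun _ => 1) fun _ => d1) ?_ ?_
    · rw [NM_R tw]
      intro i hi
      obtain ⟨b1, b2, -⟩ := hB
      rw [Nx7_one tw hi, kap7, dg_vec3, b1]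
      have e : ∑ i ∈ S, D.a i 0 + d0 + d1 + 0 = 0 := by linear_combination b2
      rw [e]
      have h5 : ∀ x y z t : ZMod 2, 0 * x + y * z + 0 * t + z * y = 0 := by decide
      exact h5 _ _ _ _
    · obtain ⟨i, hi⟩ := hS
      intro h
      exact one_ne_zero ((vx_zero_iff.1 h).1 i hi)
  · rw [not_nonempty_iff_eq_empty] at hS
    subst hS
    refine two_le_kM D _ ∅ (v0 := vx ∅ (fun _ => 1) fun _ => 1) ?_ ?_
    · rw [NM_R tw]
      intro i hi
      exact absurd hi (notMem_empty _)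
    · intro h
      exact one_ne_zero ((vx_zero_iff.1 h).2 ())

/-- The kernel has at least two elements in the case (LR). -/
theorem two_le_N (tw : Tw7 D) (hA : SqA7 D S d0 d1 d2) (hB : SqB7 D S d0 d1 d2) :
    2 ≤ kM D (PN7 d0 d1 d2 (∑ i ∈ S, D.a i 0)) S := by
  obtain ⟨a1, a2, -⟩ := hA
  obtain ⟨b1, b2, -⟩ := hB
  have hS : S.Nonempty := by
    rw [nonempty_iff_ne_empty]
    rintro rfl
    rw [sum_empty, a1] at b2
    rw [b1] at a2
    have h5 : ∀ x : ZMod 2, x + 0 + 0 = 0 → x + 1 + 0 = 0 → False := by decide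
    exact h5 _ b2 a2
  refine two_le_kM D _ S (v0 := vx S (fun _ => 1) fun e => e.elim) ?_ ?_
  · rw [NM_vx tw _ rfl]
    refine ⟨fun i hi => ?_, fun f => f.elim⟩
    rw [univ_eq_empty, sum_empty, Nx7_one tw hi, kap7, dg_vec3, b1, a1]
    rw [a1] at b2
    have e : ∑ i ∈ S, D.a i 0 + d0 + 0 + 0 = 0 := by linear_combination b2
    rw [e]
    ring
  · obtain ⟨i, hi⟩ := hS
    intro h
    exact one_ne_zero ((vx_zero_iff.1 h).1 i hi)

end

end Pool.Agent.Lib.MP_1a91b9_ntV
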