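import Mathlib.Data.ZMod.Basic
import Mathlib.Data.Fin.VecNotation
import Mathlib.Tactic.FinCases
import Mathlib.Tactic.Ring

/-!
# MP_1a91b9_nt (twists over `ℚ(√-7)`), part D: the pencil of local conditions

Two smallness conditions on a space of vectors over the field with two elements whose local conditions meet
in codimension one, and the third member of the pencil.
-/

set_option autoImplicit false
set_option linter.unusedSectionVars false

namespace Pool.Agent.Lib.MP_1a91b9_ntV.Pn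

/-- the scalar product -/
def dp (w u : Fin 3 → ZMod 2) : ZMod 2 := w 0 * u 0 + w 1 * u 1 + w 2 * u 2

/-- the first functional -/
def ww (t e f : ZMod 2) : Fin 3 → ZMod 2 :=
  if t = 1 ∧ e = 0 ∧ f = 0 then ![0, 1, 0] else ![t + 1, f, e]

/-- the second functional -/
def nn (t e f : ZMod 2) : Fin 3 → ZMod 2 :=
  if e = 0 ∧ f = 0 then (if t = 1 then ![0, 0, 1] else ![0, 1, 0]) else ![1, t * e, t * (1 + e) * f]

theorem dp_add (w u v : Fin 3 → ZMod 2) : dp w (u + v) = dp w u + dp w v := by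
  simp only [dp, Pi.add_apply]
  ring

theorem ww_O (u : Fin 3 → ZMod 2) : dp (ww 1 0 0) u = u 1 := by
  have e : ww 1 0 0 = ![0, 1, 0] := by decide
  rw [e]
  show 0 * u 0 + 1 * u 1 + 0 * u 2 = u 1
  ring

theorem ww_nO {t e f : ZMod 2} (h : ¬ (t = 1 ∧ e = 0 ∧ f = 0)) (u : Fin 3 → ZMod 2) :
    dp (ww t e f) u = (t + 1) * u 0 + f * u 1 + e * u 2 := by
  rw [ww, if_neg h]
  rfl

theorem ww_Z (u : Fin 3 → ZMod 2) : dp (ww 0 0 0) u = u 0 := by
  have e : ww 0 0 0 = ![1, 0, 0] := by decide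
  rw [e]
  show 1 * u 0 + 0 * u 1 + 0 * u 2 = u 0
  ring

theorem nn_Z (u : Fin 3 → ZMod 2) : dp (nn 0 0 0) u = u 1 := by
  have e : nn 0 0 0 = ![0, 1, 0] := by decide
  rw [e]
  show 0 * u 0 + 1 * u 1 + 0 * u 2 = u 1
  ring

theorem zero_or {t e f x y z : ZMod 2} (h : ¬ (t = 0 ∧ e = 0 ∧ f = 0))
    (h1 : dp (ww t e f) ![x, y, z] = 0) (h2 : dp (nn t e f) ![x, y, z] = 0) :
    (x = 0 ∧ y = 0 ∧ z = 0) ∨ (x = t ∧ y = e ∧ z = f) := by
  revert t e f x y z
  decide

theorem dp_ww_self (t e f : ZMod 2) : dp (ww t e f) ![t, e, f] = 0 := by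
  revert t e f
  decide

theorem dp_nn_self (t e f : ZMod 2) : dp (nn t e f) ![t, e, f] = 0 := by
  revert t e f
  decide

theorem vec3_eta (u : Fin 3 → ZMod 2) : ![u 0, u 1, u 2] = u := by
  funext i
  fin_cases i <;> rfl

/-- The configuration. -/
structure Cfg (V : Type) [AddCommGroup V] where
  G : V → Prop
  ua : V → Fin 3 → ZMod 2
  ub : V → Fin 3 → ZMod 2
  o : V
  t : ZMod 2
  e : ZMod 2
  f : ZMod 2
  t' : ZMod 2
  e' : ZMod 2
  f' : ZMod 2
  two : ∀ v : V, v + v = 0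
  add : ∀ v w, G v → G w → G (v + w)
  ga : ∀ v w, ua (v + w) = ua v + ua w
  gb : ∀ v w, ub (v + w) = ub v + ub w
  ho : G o
  hoa : ua o = ![t, e, f]
  hob : ub o = ![t', e', f']
  lam : ∀ v, G v → ((t + 1) * ua v 0 + f * ua v 1 + e * ua v 2) +
    ((t' + 1) * ub v 0 + f' * ub v 1 + e' * ub v 2) = 0

namespace Cfg

variable {V : Type} [AddCommGroup V] (c : Cfg V)

/-- The configuration with the two sides exchanged. -/
def swap : Cfg V where
  G := c.G
  ua := c.ub
  ub := c.ua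
  o := c.o
  t := c.t'
  e := c.e'
  f := c.f'
  t' := c.t
  e' := c.e
  f' := c.f
  two := c.two
  add := c.add
  ga := c.gb
  gb := c.ga
  ho := c.ho
  hoa := c.hob
  hob := c.hoa
  lam v hv := by
    rw [add_comm]
    exact c.lam v hv

/-- the common conditions -/
def H (v : V) : Prop := c.G v ∧ dp (ww c.t c.e c.f) (c.ua v) = 0 ∧
  dp (ww c.t' c.e' c.f') (c.ub v) = 0

/-- the first additional condition -/
def al (v : V) : ZMod 2 := dp (nn c.t c.e c.f) (c.ua v)

/-- the second additional condition -/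
def bt (v : V) : ZMod 2 := dp (nn c.t' c.e' c.f') (c.ub v)

/-- The criterion. -/
def Crit : Prop := ∀ v, c.G v → c.ub v 0 = 0 → c.ub v 1 = 0 →
  (¬ (c.t' = 0 ∧ c.e' = 0 ∧ c.f' = 0) → c.ub v 2 = 0) →
  (c.t = 1 ∧ c.e = 0 ∧ c.f = 0 → c.ua v 1 = 0) →
  v = 0 ∨ (v = c.o ∧ (c.t' = 0 ∧ c.e' = 0 ∧ c.f' = 0))

theorem eq_o {v : V} (h : v + c.o = 0) : v = c.o := by
  have h1 := c.two c.o
  calc v = v + (c.o + c.o) := by rw [h1, add_zero]
    _ = (v + c.o) + c.o := (add_assoc _ _ _).symm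
    _ = c.o := by rw [h, zero_add]

/-- The criterion says that the space of the conditions is as small as possible. -/
theorem crit_iff : c.Crit ↔ ∀ v, c.H v → c.bt v = 0 → v = 0 ∨ v = c.o := by
  constructor
  · intro hg v hv hb
    obtain ⟨hG, h1, h2⟩ := hv
    have hO : c.t = 1 ∧ c.e = 0 ∧ c.f = 0 → c.ua v 1 = 0 := by
      rintro ⟨ht, he, hf⟩
      rw [ht, he, hf, ww_O] at h1
      exact h1
    by_cases hZ : c.t' = 0 ∧ c.e' = 0 ∧ c.f' = 0
    · have h3 : c.ub v 0 = 0 := by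
        rw [hZ.1, hZ.2.1, hZ.2.2, ww_Z] at h2
        exact h2
      have h4 : c.ub v 1 = 0 := by
        unfold bt at hb
        rw [hZ.1, hZ.2.1, hZ.2.2, nn_Z] at hb
        exact hb
      rcases hg v hG h3 h4 (fun h => absurd hZ h) hO with h | h
      · exact Or.inl h
      · exact Or.inr h.1
    · have h2' := h2
      have hb' := hb
      unfold bt at hb'
      rw [← vec3_eta (c.ub v)] at h2' hb'
      rcases zero_or hZ h2' hb' with ⟨h3, h4, h5⟩ | ⟨h3, h4, h5⟩
      · rcases hg v hG h3 h4 (fun _ => h5) hO with h | h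
        · exact Or.inl h
        · exact Or.inr h.1
      · have e : ∀ k, c.ub (v + c.o) k = c.ub v k + c.ub c.o k := fun k => by
          rw [c.gb]
          rfl
        have e' : ∀ x : ZMod 2, x + x = 0 := by decide
        have h6 : c.ub (v + c.o) 0 = 0 := by
          rw [e, c.hob, h3]
          exact e' _
        have h7 : c.ub (v + c.o) 1 = 0 := by
          rw [e, c.hob, h4]
          exact e' _
        have h8 : c.ub (v + c.o) 2 = 0 := by
          rw [e, c.hob, h5]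
          exact e' _
        have h9 : c.t = 1 ∧ c.e = 0 ∧ c.f = 0 → c.ua (v + c.o) 1 = 0 := by
          intro h
          rw [c.ga, Pi.add_apply, hO h, c.hoa, zero_add]
          exact h.2.1
        rcases hg (v + c.o) (c.add _ _ hG c.ho) h6 h7 (fun _ => h8) h9 with h | h
        · exact Or.inr (c.eq_o h)
        · exact absurd h.2 hZ
  · intro hm v hG h0 h1 h2 hO
    have hz : c.e' * c.ub v 2 = 0 := by
      by_cases hZ : c.t' = 0 ∧ c.e' = 0 ∧ c.f' = 0
      · rw [hZ.2.1, zero_mul]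
      · rw [h2 hZ, mul_zero]
    have hl := c.lam v hG
    rw [h0, h1, mul_zero, mul_zero, zero_add, zero_add, hz, add_zero] at hl
    have hH : c.H v := by
      refine ⟨hG, ?_, ?_⟩
      · by_cases hO' : c.t = 1 ∧ c.e = 0 ∧ c.f = 0
        · rw [hO'.1, hO'.2.1, hO'.2.2, ww_O]
          exact hO hO'
        · rw [ww_nO hO']
          exact hl
      · by_cases hZ : c.t' = 0 ∧ c.e' = 0 ∧ c.f' = 0
        · rw [hZ.1, hZ.2.1, hZ.2.2, ww_Z]
          exact h0
        · rw [dp, h0, h1, h2 hZ]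
          ring
    have hb : c.bt v = 0 := by
      unfold bt
      by_cases hZ : c.t' = 0 ∧ c.e' = 0 ∧ c.f' = 0
      · rw [hZ.1, hZ.2.1, hZ.2.2, nn_Z]
        exact h1
      · rw [dp, h0, h1, h2 hZ]
        ring
    rcases hm v hH hb with h | h
    · exact Or.inl h
    · refine Or.inr ⟨h, ?_⟩
      by_contra hZ
      have h2' := h2 hZ
      rw [h, c.hob] at h0 h1 h2'
      exact hZ ⟨h0, h1, h2'⟩

theorem H_add {v w : V} (hv : c.H v) (hw : c.H w) : c.H (v + w) :=
  ⟨c.add _ _ hv.1 hw.1, by rw [c.ga, dp_add, hv.2.1, hw.2.1, add_zero],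
    by rw [c.gb, dp_add, hv.2.2, hw.2.2, add_zero]⟩

theorem al_add (v w : V) : c.al (v + w) = c.al v + c.al w := by
  unfold al
  rw [c.ga, dp_add]

theorem bt_add (v w : V) : c.bt (v + w) = c.bt v + c.bt w := by
  unfold bt
  rw [c.gb, dp_add]

theorem H_o : c.H c.o := ⟨c.ho, by rw [c.hoa]; exact dp_ww_self _ _ _,
  by rw [c.hob]; exact dp_ww_self _ _ _⟩

theorem al_o : c.al c.o = 0 := by
  unfold al
  rw [c.hoa]
  exact dp_nn_self _ _ _

theorem bt_o : c.bt c.o = 0 := by
  unfold bt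
  rw [c.hob]
  exact dp_nn_self _ _ _

theorem al_zero : c.al 0 = 0 := by
  have h := c.al_add 0 0
  rw [add_zero] at h
  have e : ∀ x : ZMod 2, x = x + x → x = 0 := by decide
  exact e _ h

theorem bt_zero : c.bt 0 = 0 := by
  have h := c.bt_add 0 0
  rw [add_zero] at h
  have e : ∀ x : ZMod 2, x = x + x → x = 0 := by decide
  exact e _ h

/-- There is another vector with the condition `F`. -/
def Big (F : V → ZMod 2) : Prop := ∃ v, c.H v ∧ F v = 0 ∧ v ≠ 0 ∧ v ≠ c.o

theorem not_big {F : V → ZMod 2} : ¬ c.Big F ↔ ∀ v, c.H v → F v = 0 → v = 0 ∨ v = c.o := by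
  unfold Big
  constructor
  · intro h v hv hF
    by_contra hcon
    push Not at hcon
    exact h ⟨v, hv, hF, hcon.1, hcon.2⟩
  · rintro h ⟨v, hv, hF, h0, h1⟩
    rcases h v hv hF with h2 | h2
    · exact h0 h2
    · exact h1 h2

theorem ne_of_al {v : V} (h : c.al v = 1) : v ≠ 0 ∧ v ≠ c.o := by
  constructor
  · rintro rfl
    rw [al_zero] at h
    exact zero_ne_one h
  · rintro rfl
    rw [al_o] at h
    exact zero_ne_one h

theorem ne_of_bt {v : V} (h : c.bt v = 1) : v ≠ 0 ∧ v ≠ c.o := by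
  constructor
  · rintro rfl
    rw [bt_zero] at h
    exact zero_ne_one h
  · rintro rfl
    rw [bt_o] at h
    exact zero_ne_one h

theorem z2_cases (x : ZMod 2) : x = 0 ∨ x = 1 := by
  revert x
  decide

theorem one_one : (1 : ZMod 2) + 1 = 0 := by decide

/-- **The pencil.** One or three of the three spaces are too big. -/
theorem pencil (hg : ∃ v, c.H v ∧ v ≠ 0 ∧ v ≠ c.o) :
    ¬ c.Big (fun v => c.al v + c.bt v) ↔ ¬ (¬ c.Big c.bt ↔ ¬ c.Big c.al) := by
  have h1 : c.Big c.al ∨ c.Big c.bt ∨ c.Big (fun v => c.al v + c.bt v) := by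
    obtain ⟨v, hv, h0, ho⟩ := hg
    rcases z2_cases (c.al v) with ha | ha
    · exact Or.inl ⟨v, hv, ha, h0, ho⟩
    · rcases z2_cases (c.bt v) with hb | hb
      · exact Or.inr (Or.inl ⟨v, hv, hb, h0, ho⟩)
      · refine Or.inr (Or.inr ⟨v, hv, ?_, h0, ho⟩)
        show c.al v + c.bt v = 0
        rw [ha, hb]
        exact one_one
  have h2 : c.Big c.al → c.Big c.bt → c.Big (fun v => c.al v + c.bt v) := by
    rintro ⟨v, hv, hav, hv0, hvo⟩ ⟨w, hw, hbw, hw0, hwo⟩
    rcases z2_cases (c.bt v) with hb | hb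
    · refine ⟨v, hv, ?_, hv0, hvo⟩
      show c.al v + c.bt v = 0
      rw [hav, hb, add_zero]
    rcases z2_cases (c.al w) with ha | ha
    · refine ⟨w, hw, ?_, hw0, hwo⟩
      show c.al w + c.bt w = 0
      rw [ha, hbw, add_zero]
    · have e1 : c.al (v + w) = 1 := by rw [al_add, hav, ha, zero_add]
      have e2 : c.bt (v + w) = 1 := by rw [bt_add, hb, hbw, add_zero]
      refine ⟨v + w, c.H_add hv hw, ?_, (c.ne_of_al e1).1, (c.ne_of_al e1).2⟩
      show c.al (v + w) + c.bt (v + w) = 0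
      rw [e1, e2]
      exact one_one
  have h3 : c.Big c.al → c.Big (fun v => c.al v + c.bt v) → c.Big c.bt := by
    rintro ⟨v, hv, hav, hv0, hvo⟩ ⟨w, hw, hsw, hw0, hwo⟩
    change c.al w + c.bt w = 0 at hsw
    rcases z2_cases (c.bt v) with hb | hb
    · exact ⟨v, hv, hb, hv0, hvo⟩
    rcases z2_cases (c.bt w) with hb' | hb'
    · exact ⟨w, hw, hb', hw0, hwo⟩
    · have ha : c.al w = 1 := by
        rw [hb'] at hsw
        have e : ∀ x : ZMod 2, x + 1 = 0 → x = 1 := by decide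
        exact e _ hsw
      have e1 : c.al (v + w) = 1 := by rw [al_add, hav, ha, zero_add]
      have e2 : c.bt (v + w) = 0 := by rw [bt_add, hb, hb', one_one]
      exact ⟨v + w, c.H_add hv hw, e2, (c.ne_of_al e1).1, (c.ne_of_al e1).2⟩
  have h4 : c.Big c.bt → c.Big (fun v => c.al v + c.bt v) → c.Big c.al := by
    rintro ⟨v, hv, hbv, hv0, hvo⟩ ⟨w, hw, hsw, hw0, hwo⟩
    change c.al w + c.bt w = 0 at hsw
    rcases z2_cases (c.al v) with ha | ha
    · exact ⟨v, hv, ha, hv0, hvo⟩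
    rcases z2_cases (c.al w) with ha' | ha'
    · exact ⟨w, hw, ha', hw0, hwo⟩
    · have hb : c.bt w = 1 := by
        rw [ha'] at hsw
        have e : ∀ x : ZMod 2, 1 + x = 0 → x = 1 := by decide
        exact e _ hsw
      have e1 : c.al (v + w) = 0 := by rw [al_add, ha, ha', one_one]
      have e2 : c.bt (v + w) = 1 := by rw [bt_add, hbv, hb, zero_add]
      exact ⟨v + w, c.H_add hv hw, e1, (c.ne_of_bt e2).1, (c.ne_of_bt e2).2⟩
  constructor
  · intro h5 h6
    rcases h1 with h | h | h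
    · by_cases hb : c.Big c.bt
      · exact h5 (h2 h hb)
      · exact h6.1 hb h
    · by_cases ha : c.Big c.al
      · exact h5 (h2 ha h)
      · exact h6.2 ha h
    · exact h5 h
  · intro h5 h6
    apply h5
    constructor
    · intro hb ha
      exact hb (h3 ha h6)
    · intro ha hb
      exact ha (h4 hb h6)

end Cfg

end Pool.Agent.Lib.MP_1a91b9_ntV.Pn
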