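import Pool.Agent.Lib.MP_1a91b9_ntV.DI.Dens7
import Pool.Agent.Lib.MP_1a91b9_ntV.DI.Pencil
import Pool.Agent.Lib.MP_1a91b9_ntV.C.CritT

/-!
# MP_1a91b9_nt (twists over `ℚ(√-7)`), part D: the pairs `D`, `-D`

`P7 γ d0 d1 d2 i`, `i = 0, 1, 2`: three matrices; the first is the criterion of `D`, the second that of `-D`,
and exactly zero or two of the three kernels are as small as possible.
-/

set_option autoImplicit false
set_option linter.unusedSectionVars false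

namespace Pool.Agent.Lib.MP_1a91b9_ntV.Pn

open Finset Pool.Agent.Lib.MP_1a91b9_ntH Pool.Agent.Lib.MP_1a91b9_ntQ
open Pool.Agent.Lib.MP_1a91b9_ntQ.Da
open Pool.Agent.Lib.MP_1a91b9_ntV.DS

noncomputable section

/-- class vector of the first side -/
def fa (W : Fin 3 → ZMod 2) : Fin 3 → ZMod 2 := ![W 0, W 2, 0]

/-- class vector of the second side -/
def fb (W : Fin 3 → ZMod 2) : Fin 3 → ZMod 2 := ![0, 0, W 2]

/-- corner of the first side -/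
def qa (W : Fin 3 → ZMod 2) : Fin 3 → ZMod 2 := ![W 0, W 1, W 2]

/-- corner of the second side -/
def qb (W : Fin 3 → ZMod 2) : Fin 3 → ZMod 2 := ![W 0, W 2, W 1]

def ca : Fin 3 → ZMod 2 := ![0, 1, 1]

def cb : Fin 3 → ZMod 2 := ![1, 0, 1]

section data

variable (γ : Fin 3 → ZMod 2) (d0 d1 d2 : ZMod 2)

def Wa : Fin 3 → ZMod 2 := ww (d0 + d1 + d2) d1 (γ 1 + d2)

def Wb : Fin 3 → ZMod 2 := ww (γ 0 + (d0 + d1 + d2)) d2 (γ 2 + d1)

def Na : Fin 3 → ZMod 2 := nn (d0 + d1 + d2) d1 (γ 1 + d2)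

def Nb : Fin 3 → ZMod 2 := nn (γ 0 + (d0 + d1 + d2)) d2 (γ 2 + d1)

/-- The three systems of a pair. -/
def P7 (i : Fin 3) : BD (Fin 3) (Fin 3) (Fin 3) where
  kap := kap7 d0 d1 d2 (γ 0)
  be e := Pi.single e 1
  bf := ![fa (Wa γ d0 d1 d2), fb (Wb γ d0 d1 d2),
    fun j => ca i * fa (Na γ d0 d1 d2) j + cb i * fb (Nb γ d0 d1 d2) j]
  R := Matrix.of ![qa (Wa γ d0 d1 d2), qb (Wb γ d0 d1 d2),
    fun j => ca i * qa (Na γ d0 d1 d2) j + cb i * qb (Nb γ d0 d1 d2) j]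

/-- The system of the common conditions. -/
def PH : BD (Fin 3) (Fin 3) (Fin 2) where
  kap := kap7 d0 d1 d2 (γ 0)
  be e := Pi.single e 1
  bf := ![fa (Wa γ d0 d1 d2), fb (Wb γ d0 d1 d2)]
  R := Matrix.of ![qa (Wa γ d0 d1 d2), qb (Wb γ d0 d1 d2)]

end data

variable {ι : Type} [DecidableEq ι] (D : Dat2 ι (Fin 3)) (S : Finset ι)

/-- the sums -/
def pp (v : S ⊕ Fin 3 → ZMod 2) (j : Fin 3) : ZMod 2 := ∑ l : S, D.a l j * v (Sum.inl l)

def ua (v : S ⊕ Fin 3 → ZMod 2) : Fin 3 → ZMod 2 :=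
  ![pp D S v 0 + v (Sum.inr 0), v (Sum.inr 1), pp D S v 1 + v (Sum.inr 2)]

def ub (v : S ⊕ Fin 3 → ZMod 2) : Fin 3 → ZMod 2 :=
  ![v (Sum.inr 0), v (Sum.inr 2), pp D S v 2 + v (Sum.inr 1)]

theorem pp_add (v w : S ⊕ Fin 3 → ZMod 2) (j : Fin 3) :
    pp D S (v + w) j = pp D S v j + pp D S w j := by
  unfold pp
  rw [← sum_add_distrib]
  exact sum_congr rfl fun l _ => by
    rw [Pi.add_apply]
    ring

theorem ua_add (v w : S ⊕ Fin 3 → ZMod 2) : ua D S (v + w) = ua D S v + ua D S w := by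
  funext i
  fin_cases i
  · show pp D S (v + w) 0 + (v + w) (Sum.inr 0) = (pp D S v 0 + v (Sum.inr 0)) +
      (pp D S w 0 + w (Sum.inr 0))
    rw [pp_add, Pi.add_apply]
    ring
  · rfl
  · show pp D S (v + w) 1 + (v + w) (Sum.inr 2) = (pp D S v 1 + v (Sum.inr 2)) +
      (pp D S w 1 + w (Sum.inr 2))
    rw [pp_add, Pi.add_apply]
    ring

theorem ub_add (v w : S ⊕ Fin 3 → ZMod 2) : ub D S (v + w) = ub D S v + ub D S w := by
  funext i
  fin_cases i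
  · rfl
  · rfl
  · show pp D S (v + w) 2 + (v + w) (Sum.inr 1) = (pp D S v 2 + v (Sum.inr 1)) +
      (pp D S w 2 + w (Sum.inr 1))
    rw [pp_add, Pi.add_apply]
    ring

theorem sum_dg (x y z : ZMod 2) (v : S ⊕ Fin 3 → ZMod 2) :
    ∑ l : S, D.dg ![x, y, z] l * v (Sum.inl l) = x * pp D S v 0 + y * pp D S v 1 + z * pp D S v 2 := by
  unfold pp
  rw [mul_sum, mul_sum, mul_sum, ← sum_add_distrib, ← sum_add_distrib]
  refine sum_congr rfl fun l _ => ?_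
  rw [dg_vec3]
  ring

/-- a row of the first side -/
theorem row_a (W : Fin 3 → ZMod 2) (v : S ⊕ Fin 3 → ZMod 2) :
    ∑ l : S, D.dg (fa W) l * v (Sum.inl l) + ∑ e, qa W e * v (Sum.inr e) = dp W (ua D S v) := by
  unfold fa
  rw [sum_dg, Fin.sum_univ_three]
  show W 0 * pp D S v 0 + W 2 * pp D S v 1 + 0 * pp D S v 2 + (W 0 * v (Sum.inr 0) +
    W 1 * v (Sum.inr 1) + W 2 * v (Sum.inr 2)) = W 0 * (pp D S v 0 + v (Sum.inr 0)) +
    W 1 * v (Sum.inr 1) + W 2 * (pp D S v 1 + v (Sum.inr 2))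
  ring

/-- a row of the second side -/
theorem row_b (W : Fin 3 → ZMod 2) (v : S ⊕ Fin 3 → ZMod 2) :
    ∑ l : S, D.dg (fb W) l * v (Sum.inl l) + ∑ e, qb W e * v (Sum.inr e) = dp W (ub D S v) := by
  unfold fb
  rw [sum_dg, Fin.sum_univ_three]
  show 0 * pp D S v 0 + 0 * pp D S v 1 + W 2 * pp D S v 2 + (W 0 * v (Sum.inr 0) +
    W 2 * v (Sum.inr 1) + W 1 * v (Sum.inr 2)) = W 0 * v (Sum.inr 0) +
    W 1 * v (Sum.inr 2) + W 2 * (pp D S v 2 + v (Sum.inr 1))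
  ring

theorem dg_comb (x y : ZMod 2) (u v : Fin 3 → ZMod 2) (q : ι) :
    D.dg (fun j => x * u j + y * v j) q = x * D.dg u q + y * D.dg v q := by
  unfold Dat2.dg
  rw [mul_sum, mul_sum, ← sum_add_distrib]
  exact sum_congr rfl fun j _ => by ring

variable (γ : Fin 3 → ZMod 2) (d0 d1 d2 : ZMod 2)

/-- the rows of the primes -/
def GG (v : S ⊕ Fin 3 → ZMod 2) : Prop := ∀ i : S,
  D.dg (kap7 d0 d1 d2 (γ 0)) i * v (Sum.inl i) + ∑ l : S, D.s i l * (v (Sum.inl i) + v (Sum.inl l)) +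
    (D.a i 0 * v (Sum.inr 0) + D.a i 1 * v (Sum.inr 1) + D.a i 2 * v (Sum.inr 2)) = 0

theorem dg_single (e : Fin 3) (q : ι) : D.dg (Pi.single e 1) q = D.a q e := by
  unfold Dat2.dg
  rw [sum_eq_single e]
  · rw [Pi.single_eq_same, one_mul]
  · intro j _ hj
    rw [Pi.single_eq_of_ne hj, zero_mul]
  · intro h
    exact absurd (mem_univ e) h

theorem rows_eq (v : S ⊕ Fin 3 → ZMod 2) (i : S) :
    D.dg (kap7 d0 d1 d2 (γ 0)) i * v (Sum.inl i) +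
      ∑ l : S, D.s i l * (v (Sum.inl i) + v (Sum.inl l)) +
      ∑ e : Fin 3, D.dg (Pi.single e 1) i * v (Sum.inr e) =
    D.dg (kap7 d0 d1 d2 (γ 0)) i * v (Sum.inl i) +
      ∑ l : S, D.s i l * (v (Sum.inl i) + v (Sum.inl l)) +
      (D.a i 0 * v (Sum.inr 0) + D.a i 1 * v (Sum.inr 1) + D.a i 2 * v (Sum.inr 2)) := by
  rw [Fin.sum_univ_three, dg_single, dg_single, dg_single]

/-- The kernel of the system of the common conditions. -/
theorem ker_PH (v : S ⊕ Fin 3 → ZMod 2) : (NM D (PH γ d0 d1 d2) S).mulVec v = 0 ↔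
    GG D S γ d0 d1 d2 v ∧ dp (Wa γ d0 d1 d2) (ua D S v) = 0 ∧
      dp (Wb γ d0 d1 d2) (ub D S v) = 0 := by
  have h1 : ∀ i : S, (NM D (PH γ d0 d1 d2) S).mulVec v (Sum.inl i) =
      D.dg (kap7 d0 d1 d2 (γ 0)) i * v (Sum.inl i) +
      ∑ l : S, D.s i l * (v (Sum.inl i) + v (Sum.inl l)) +
      (D.a i 0 * v (Sum.inr 0) + D.a i 1 * v (Sum.inr 1) + D.a i 2 * v (Sum.inr 2)) := by
    intro i
    rw [NM_inl]
    exact rows_eq D S γ d0 d1 d2 v i
  have h2 : (NM D (PH γ d0 d1 d2) S).mulVec v (Sum.inr 0) = dp (Wa γ d0 d1 d2) (ua D S v) := by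
    rw [NM_inr]
    exact row_a D S _ v
  have h3 : (NM D (PH γ d0 d1 d2) S).mulVec v (Sum.inr 1) = dp (Wb γ d0 d1 d2) (ub D S v) := by
    rw [NM_inr]
    exact row_b D S _ v
  constructor
  · intro h
    refine ⟨fun i => ?_, ?_, ?_⟩
    · rw [← h1, h]
      rfl
    · rw [← h2, h]
      rfl
    · rw [← h3, h]
      rfl
  · rintro ⟨h4, h5, h6⟩
    funext i
    rcases i with i | f
    · rw [h1]
      exact h4 i
    · fin_cases f
      · exact h2.trans h5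
      · exact h3.trans h6

/-- The kernels of the three systems. -/
theorem ker_P7 (i : Fin 3) (v : S ⊕ Fin 3 → ZMod 2) : (NM D (P7 γ d0 d1 d2 i) S).mulVec v = 0 ↔
    (NM D (PH γ d0 d1 d2) S).mulVec v = 0 ∧
      ca i * dp (Na γ d0 d1 d2) (ua D S v) + cb i * dp (Nb γ d0 d1 d2) (ub D S v) = 0 := by
  have h1 : ∀ j : S, (NM D (P7 γ d0 d1 d2 i) S).mulVec v (Sum.inl j) =
      (NM D (PH γ d0 d1 d2) S).mulVec v (Sum.inl j) := by
    intro j
    rw [NM_inl, NM_inl]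
    rfl
  have h2 : (NM D (P7 γ d0 d1 d2 i) S).mulVec v (Sum.inr 0) =
      (NM D (PH γ d0 d1 d2) S).mulVec v (Sum.inr 0) := by
    rw [NM_inr, NM_inr]
    rfl
  have h3 : (NM D (P7 γ d0 d1 d2 i) S).mulVec v (Sum.inr 1) =
      (NM D (PH γ d0 d1 d2) S).mulVec v (Sum.inr 1) := by
    rw [NM_inr, NM_inr]
    rfl
  have h4 : (NM D (P7 γ d0 d1 d2 i) S).mulVec v (Sum.inr 2) =
      ca i * dp (Na γ d0 d1 d2) (ua D S v) + cb i * dp (Nb γ d0 d1 d2) (ub D S v) := by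
    rw [NM_inr, ← row_a, ← row_b]
    have e1 : ∑ l : S, D.dg ((P7 γ d0 d1 d2 i).bf 2) l * v (Sum.inl l) =
        ∑ l : S, (ca i * D.dg (fa (Na γ d0 d1 d2)) l + cb i * D.dg (fb (Nb γ d0 d1 d2)) l) *
          v (Sum.inl l) := sum_congr rfl fun l _ => by
      congr 1
      exact dg_comb D _ _ _ _ _
    have e2 : ∑ e, (P7 γ d0 d1 d2 i).R 2 e * v (Sum.inr e) =
        ∑ e, (ca i * qa (Na γ d0 d1 d2) e + cb i * qb (Nb γ d0 d1 d2) e) * v (Sum.inr e) := rfl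
    rw [e1, e2]
    simp only [mul_add, add_mul, sum_add_distrib, mul_sum, mul_assoc]
    ring
  constructor
  · intro h
    refine ⟨?_, ?_⟩
    · funext j
      rcases j with j | f
      · rw [← h1, h]
        rfl
      · fin_cases f
        · exact h2.symm.trans (congrFun h _)
        · exact h3.symm.trans (congrFun h _)
    · rw [← h4, h]
      rfl
  · rintro ⟨h5, h6⟩
    funext j
    rcases j with j | f
    · rw [h1, h5]
      rfl
    · fin_cases f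
      · exact h2.trans (congrFun h5 _)
      · exact h3.trans (congrFun h5 _)
      · exact h4.trans h6

/-- The sum of the rows of the primes. -/
theorem sum_Nx7 (x : ι → ZMod 2) : ∑ i ∈ S, Nx7 D S d0 d1 d2 x i =
    (d0 + d1 + d2 + 1) * (∑ i ∈ S, D.a i 0 * x i) + d1 * (∑ i ∈ S, D.a i 1 * x i) +
      d2 * (∑ i ∈ S, D.a i 2 * x i) := by
  have h1 : ∑ i ∈ S, ∑ j ∈ S.erase i, D.s i j * x j =
      ∑ j ∈ S, (∑ i ∈ S.erase j, D.s i j) * x j := by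
    rw [sum_comm' (t' := S) (s' := fun j => S.erase j)]
    · exact sum_congr rfl fun j _ => (sum_mul _ _ _).symm
    · intro i j
      constructor
      · rintro ⟨hi, hj⟩
        exact ⟨mem_erase.2 ⟨(ne_of_mem_erase hj).symm, hi⟩, mem_of_mem_erase hj⟩
      · rintro ⟨hi, hj⟩
        exact ⟨mem_of_mem_erase hi, mem_erase.2 ⟨(ne_of_mem_erase hi).symm, hj⟩⟩
  unfold Nx7
  rw [sum_add_distrib, h1, ← sum_add_distrib, mul_sum, mul_sum, mul_sum, ← sum_add_distrib,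
    ← sum_add_distrib]
  refine sum_congr rfl fun i _ => ?_
  have e : ∀ a : ZMod 2, a + a = 0 := by decide
  unfold wt7
  linear_combination e ((∑ j ∈ S.erase i, D.s j i) * x i)

variable {D S γ}

theorem GG_vx (tw : Tw7 D) (h0 : ∑ i ∈ S, D.a i 0 = γ 0) (x : ι → ZMod 2) (z : Fin 3 → ZMod 2) :
    GG D S γ d0 d1 d2 (vx S x z) ↔
      ∀ i ∈ S, Nx7 D S d0 d1 d2 x i + (D.a i 0 * z 0 + D.a i 1 * z 1 + D.a i 2 * z 2) = 0 := by
  have key : ∀ i : S, D.dg (kap7 d0 d1 d2 (γ 0)) i * x i + ∑ l : S, D.s i l * (x i + x l) =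
      Nx7 D S d0 d1 d2 x i := fun i => by
    rw [← h0]
    exact Nx7_eq tw x i
  constructor
  · intro h i hi
    rw [← key ⟨i, hi⟩]
    exact h ⟨i, hi⟩
  · intro h i
    have h1 := h i i.2
    rw [← key i] at h1
    exact h1

theorem pp_vx (x : ι → ZMod 2) (z : Fin 3 → ZMod 2) (j : Fin 3) :
    pp D S (vx S x z) j = ∑ i ∈ S, D.a i j * x i :=
  sum_coe_sort S fun i => D.a i j * x i

theorem ua_vx (x : ι → ZMod 2) (z : Fin 3 → ZMod 2) : ua D S (vx S x z) =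
    ![∑ i ∈ S, D.a i 0 * x i + z 0, z 1, ∑ i ∈ S, D.a i 1 * x i + z 2] := by
  unfold ua
  rw [pp_vx, pp_vx]
  rfl

theorem ub_vx (x : ι → ZMod 2) (z : Fin 3 → ZMod 2) : ub D S (vx S x z) =
    ![z 0, z 2, ∑ i ∈ S, D.a i 2 * x i + z 1] := by
  unfold ub
  rw [pp_vx]
  rfl

/-- The sum of the rows of the primes. -/
theorem sum_rows (tw : Tw7 D) (hγ : ∀ j, ∑ i ∈ S, D.a i j = γ j) (v : S ⊕ Fin 3 → ZMod 2) :
    ∑ i : S, (D.dg (kap7 d0 d1 d2 (γ 0)) i * v (Sum.inl i) +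
      ∑ l : S, D.s i l * (v (Sum.inl i) + v (Sum.inl l)) +
      (D.a i 0 * v (Sum.inr 0) + D.a i 1 * v (Sum.inr 1) + D.a i 2 * v (Sum.inr 2))) =
    ((d0 + d1 + d2 + 1) * ua D S v 0 + (γ 1 + d2) * ua D S v 1 + d1 * ua D S v 2) +
      ((γ 0 + (d0 + d1 + d2) + 1) * ub D S v 0 + (γ 2 + d1) * ub D S v 1 + d2 * ub D S v 2) := by
  obtain ⟨x, z, rfl⟩ := exists_vx v
  have key : ∀ i : S, D.dg (kap7 d0 d1 d2 (γ 0)) i * vx S x z (Sum.inl i) +
      ∑ l : S, D.s i l * (vx S x z (Sum.inl i) + vx S x z (Sum.inl l)) +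
      (D.a i 0 * vx S x z (Sum.inr 0) + D.a i 1 * vx S x z (Sum.inr 1) +
        D.a i 2 * vx S x z (Sum.inr 2)) =
      Nx7 D S d0 d1 d2 x i + (D.a i 0 * z 0 + D.a i 1 * z 1 + D.a i 2 * z 2) := fun i => by
    rw [← Nx7_eq tw x i, hγ 0]
    rfl
  rw [sum_congr rfl fun i _ => key i,
    sum_coe_sort S fun i => Nx7 D S d0 d1 d2 x i + (D.a i 0 * z 0 + D.a i 1 * z 1 + D.a i 2 * z 2),
    sum_add_distrib, sum_Nx7, sum_add_distrib, sum_add_distrib, ← sum_mul, ← sum_mul, ← sum_mul,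
    hγ 0, hγ 1, hγ 2, ua_vx, ub_vx]
  show _ = (d0 + d1 + d2 + 1) * (∑ i ∈ S, D.a i 0 * x i + z 0) + (γ 1 + d2) * z 1 +
    d1 * (∑ i ∈ S, D.a i 1 * x i + z 2) + ((γ 0 + (d0 + d1 + d2) + 1) * z 0 + (γ 2 + d1) * z 2 +
    d2 * (∑ i ∈ S, D.a i 2 * x i + z 1))
  have e : ∀ a : ZMod 2, a + a = 0 := by decide
  linear_combination -e ((d0 + d1 + d2 + 1) * z 0) - e (d2 * z 1) - e (d1 * z 2)

theorem lam7 (tw : Tw7 D) (hγ : ∀ j, ∑ i ∈ S, D.a i j = γ j) {v : S ⊕ Fin 3 → ZMod 2}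
    (hv : GG D S γ d0 d1 d2 v) :
    ((d0 + d1 + d2 + 1) * ua D S v 0 + (γ 1 + d2) * ua D S v 1 + d1 * ua D S v 2) +
      ((γ 0 + (d0 + d1 + d2) + 1) * ub D S v 0 + (γ 2 + d1) * ub D S v 1 + d2 * ub D S v 2) = 0 := by
  rw [← sum_rows d0 d1 d2 tw hγ v]
  exact sum_eq_zero fun i _ => hv i

theorem GG_add {v w : S ⊕ Fin 3 → ZMod 2} (hv : GG D S γ d0 d1 d2 v) (hw : GG D S γ d0 d1 d2 w) :
    GG D S γ d0 d1 d2 (v + w) := by
  intro i
  have h1 := hv i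
  have h2 := hw i
  have e : ∑ l : S, D.s i l * ((v + w) (Sum.inl i) + (v + w) (Sum.inl l)) =
      ∑ l : S, D.s i l * (v (Sum.inl i) + v (Sum.inl l)) +
        ∑ l : S, D.s i l * (w (Sum.inl i) + w (Sum.inl l)) := by
    rw [← sum_add_distrib]
    exact sum_congr rfl fun l _ => by
      simp only [Pi.add_apply]
      ring
  rw [e]
  simp only [Pi.add_apply]
  linear_combination h1 + h2

/-- The configuration of the pair `D`, `-D`. -/
def cfg (tw : Tw7 D) (hγ : ∀ j, ∑ i ∈ S, D.a i j = γ j) : Cfg (S ⊕ Fin 3 → ZMod 2) where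
  G := GG D S γ d0 d1 d2
  ua := ua D S
  ub := ub D S
  o := vx S (fun _ => 1) (kap7 d0 d1 d2 (γ 0))
  t := d0 + d1 + d2
  e := d1
  f := γ 1 + d2
  t' := γ 0 + (d0 + d1 + d2)
  e' := d2
  f' := γ 2 + d1
  two v := by
    funext i
    exact CharTwo.add_self_eq_zero _
  add _ _ hv hw := GG_add d0 d1 d2 hv hw
  ga := ua_add D S
  gb := ub_add D S
  ho := by
    rw [GG_vx d0 d1 d2 tw (hγ 0)]
    intro i hi
    rw [Nx7_one tw hi, hγ 0, kap7, dg_vec3]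
    show (γ 0 + d0 + d1 + d2) * D.a i 0 + d1 * D.a i 1 + d2 * D.a i 2 +
      (D.a i 0 * (γ 0 + d0 + d1 + d2) + D.a i 1 * d1 + D.a i 2 * d2) = 0
    have e : ∀ a : ZMod 2, a + a = 0 := by decide
    linear_combination e ((γ 0 + d0 + d1 + d2) * D.a i 0 + d1 * D.a i 1 + d2 * D.a i 2)
  hoa := by
    rw [ua_vx]
    simp only [mul_one, hγ]
    have e : ∀ a : ZMod 2, a + a = 0 := by decide
    have e1 : γ 0 + kap7 d0 d1 d2 (γ 0) 0 = d0 + d1 + d2 := by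
      show γ 0 + (γ 0 + d0 + d1 + d2) = _
      linear_combination e (γ 0)
    rw [e1]
    rfl
  hob := by
    rw [ub_vx]
    simp only [mul_one, hγ]
    have e1 : kap7 d0 d1 d2 (γ 0) 0 = γ 0 + (d0 + d1 + d2) := by
      show γ 0 + d0 + d1 + d2 = _
      ring
    rw [e1]
    rfl
  lam v hv := lam7 d0 d1 d2 tw hγ hv

theorem cfg_H (tw : Tw7 D) (hγ : ∀ j, ∑ i ∈ S, D.a i j = γ j) (v : S ⊕ Fin 3 → ZMod 2) :
    (cfg d0 d1 d2 tw hγ).H v ↔ (NM D (PH γ d0 d1 d2) S).mulVec v = 0 := by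
  rw [ker_PH]
  rfl

theorem o_ne (tw : Tw7 D) (hγ : ∀ j, ∑ i ∈ S, D.a i j = γ j) (hS : S.Nonempty) :
    (cfg d0 d1 d2 tw hγ).o ≠ 0 := by
  intro h
  change vx S (fun _ => 1) (kap7 d0 d1 d2 (γ 0)) = 0 at h
  obtain ⟨i, hi⟩ := hS
  exact one_ne_zero ((vx_zero_iff.1 h).1 i hi)

/-- The size of the kernel of the system `i`. -/
theorem kM_P7 (tw : Tw7 D) (hγ : ∀ j, ∑ i ∈ S, D.a i j = γ j) (hS : S.Nonempty) (i : Fin 3) :
    kM D (P7 γ d0 d1 d2 i) S = 2 ↔ ∀ v, (cfg d0 d1 d2 tw hγ).H v →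
      ca i * (cfg d0 d1 d2 tw hγ).al v + cb i * (cfg d0 d1 d2 tw hγ).bt v = 0 →
      v = 0 ∨ v = (cfg d0 d1 d2 tw hγ).o := by
  have h1 : (NM D (P7 γ d0 d1 d2 i) S).mulVec (cfg d0 d1 d2 tw hγ).o = 0 := by
    rw [ker_P7, ← cfg_H d0 d1 d2 tw hγ]
    refine ⟨Cfg.H_o _, ?_⟩
    have h2 := (cfg d0 d1 d2 tw hγ).al_o
    have h3 := (cfg d0 d1 d2 tw hγ).bt_o
    change ca i * (cfg d0 d1 d2 tw hγ).al _ + cb i * (cfg d0 d1 d2 tw hγ).bt _ = 0
    rw [h2, h3, mul_zero, mul_zero, add_zero]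
  rw [kM_two D (P7 γ d0 d1 d2 i) S h1 (o_ne d0 d1 d2 tw hγ hS)]
  constructor
  · intro h v hv hc
    exact h v ((ker_P7 D S γ d0 d1 d2 i v).2 ⟨(cfg_H d0 d1 d2 tw hγ v).1 hv, hc⟩)
  · intro h v hv
    have h4 := (ker_P7 D S γ d0 d1 d2 i v).1 hv
    exact h v ((cfg_H d0 d1 d2 tw hγ v).2 h4.1) h4.2

/-- **The first system is the criterion of `D`.** -/
theorem good_P7_0 (tw : Tw7 D) (hγ : ∀ j, ∑ i ∈ S, D.a i j = γ j) (hS : S.Nonempty) :
    Good7 D S d0 d1 d2 ↔ kM D (P7 γ d0 d1 d2 0) S = 2 := by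
  have e2 : ∀ x y : ZMod 2, x + y = 0 ↔ y = x := by decide
  have kB : ∀ d0 d1 d2 x y : ZMod 2, (d2 = 0 ∧ d0 + d1 + x = 0 ∧ d1 + y = 0) ↔
      (x + (d0 + d1 + d2) = 0 ∧ d2 = 0 ∧ y + d1 = 0) := by decide
  have kA : ∀ d0 d1 d2 x : ZMod 2, (d1 = 0 ∧ d0 + 1 + d2 = 0 ∧ d2 + x = 0) ↔
      (d0 + d1 + d2 = 1 ∧ d1 = 0 ∧ x + d2 = 0) := by decide
  have hB : SqB7 D S d0 d1 d2 ↔ (γ 0 + (d0 + d1 + d2) = 0 ∧ d2 = 0 ∧ γ 2 + d1 = 0) := by
    unfold SqB7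
    rw [hγ 0, hγ 2]
    exact kB _ _ _ _ _
  have hA : SqA7 D S d0 d1 d2 ↔ (d0 + d1 + d2 = 1 ∧ d1 = 0 ∧ γ 1 + d2 = 0) := by
    unfold SqA7
    rw [hγ 1]
    exact kA _ _ _ _
  rw [kM_P7 d0 d1 d2 tw hγ hS 0]
  have h0 : (∀ v, (cfg d0 d1 d2 tw hγ).H v →
      ca 0 * (cfg d0 d1 d2 tw hγ).al v + cb 0 * (cfg d0 d1 d2 tw hγ).bt v = 0 →
      v = 0 ∨ v = (cfg d0 d1 d2 tw hγ).o) ↔ (cfg d0 d1 d2 tw hγ).Crit := by
    rw [Cfg.crit_iff]
    refine forall_congr' fun v => imp_congr_right fun _ => ?_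
    have e : ca 0 * (cfg d0 d1 d2 tw hγ).al v + cb 0 * (cfg d0 d1 d2 tw hγ).bt v =
        (cfg d0 d1 d2 tw hγ).bt v := by
      show 0 * _ + 1 * _ = _
      ring
    rw [e]
  rw [h0]
  constructor
  · intro hg v hv h1 h2 h3 h4
    obtain ⟨x, z, rfl⟩ := exists_vx v
    change ub D S (vx S x z) 0 = 0 at h1
    change ub D S (vx S x z) 1 = 0 at h2
    change ¬ (γ 0 + (d0 + d1 + d2) = 0 ∧ d2 = 0 ∧ γ 2 + d1 = 0) → ub D S (vx S x z) 2 = 0 at h3
    change d0 + d1 + d2 = 1 ∧ d1 = 0 ∧ γ 1 + d2 = 0 → ua D S (vx S x z) 1 = 0 at h4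
    rw [← hB] at h3
    rw [← hA] at h4
    rw [ub_vx] at h1 h2 h3
    rw [ua_vx] at h4
    change z 0 = 0 at h1
    change z 2 = 0 at h2
    change ¬ SqB7 D S d0 d1 d2 → ∑ i ∈ S, D.a i 2 * x i + z 1 = 0 at h3
    change SqA7 D S d0 d1 d2 → z 1 = 0 at h4
    have h5 : Ker7 D S d0 d1 d2 x (z 1) := by
      refine ⟨fun i hi => ?_, fun h => (e2 _ _).1 (h3 h), h4⟩
      have h6 := (GG_vx d0 d1 d2 tw (hγ 0) x z).1 hv i hi
      rw [h1, h2] at h6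
      linear_combination h6
    rcases hg x (z 1) h5 with ⟨h6, h7⟩ | ⟨h6, h7, h8⟩
    · left
      rw [vx_zero_iff]
      refine ⟨h6, fun e => ?_⟩
      fin_cases e
      · exact h1
      · exact h7
      · exact h2
    · right
      refine ⟨?_, hB.1 h8⟩
      show vx S x z = vx S (fun _ => 1) (kap7 d0 d1 d2 (γ 0))
      rw [vx_eq_iff]
      refine ⟨h6, fun e => ?_⟩
      have h9 := hB.1 h8
      fin_cases e
      · show z 0 = γ 0 + d0 + d1 + d2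
        rw [h1]
        linear_combination -h9.1
      · exact h7
      · show z 2 = d2
        rw [h2, h9.2.1]
  · intro hc x x1 hx
    have h1 := hc (vx S x ![0, x1, 0]) ?_ ?_ ?_ ?_ ?_
    · rcases h1 with h | ⟨h, h8⟩
      · left
        rw [vx_zero_iff] at h
        exact ⟨h.1, h.2 1⟩
      · right
        have h2 : vx S x ![0, x1, 0] = vx S (fun _ => 1) (kap7 d0 d1 d2 (γ 0)) := h
        rw [vx_eq_iff] at h2
        exact ⟨h2.1, h2.2 1, hB.2 h8⟩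
    · show GG D S γ d0 d1 d2 (vx S x ![0, x1, 0])
      rw [GG_vx d0 d1 d2 tw (hγ 0)]
      intro i hi
      have h2 := hx.1 i hi
      show Nx7 D S d0 d1 d2 x i + (D.a i 0 * 0 + D.a i 1 * x1 + D.a i 2 * 0) = 0
      linear_combination h2
    · show ub D S (vx S x ![0, x1, 0]) 0 = 0
      rw [ub_vx]
      rfl
    · show ub D S (vx S x ![0, x1, 0]) 1 = 0
      rw [ub_vx]
      rfl
    · intro h
      change ¬ (γ 0 + (d0 + d1 + d2) = 0 ∧ d2 = 0 ∧ γ 2 + d1 = 0) at h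
      rw [← hB] at h
      show ub D S (vx S x ![0, x1, 0]) 2 = 0
      rw [ub_vx]
      exact (e2 _ _).2 (hx.2.1 h)
    · intro h
      change d0 + d1 + d2 = 1 ∧ d1 = 0 ∧ γ 1 + d2 = 0 at h
      rw [← hA] at h
      show ua D S (vx S x ![0, x1, 0]) 1 = 0
      rw [ua_vx]
      exact hx.2.2 h

/-! ### The element `-D` -/

theorem Nx_mir (tw : Tw7 D) (x : ι → ZMod 2) {i : ι} (hi : i ∈ S) :
    Cr.Nx (Cr.mir D) S (d0 + 1 + 1 + ∑ i ∈ S, D.a i 0) d2 d1 x i =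
      Nx7 D S d0 d1 d2 x i + D.a i 0 * ∑ j ∈ S, D.a j 0 * x j := by
  have h1 : ∑ j ∈ S.erase i, D.s j i * x j = ∑ j ∈ S.erase i, D.s i j * x j +
      D.a i 0 * ∑ j ∈ S.erase i, D.a j 0 * x j := by
    rw [mul_sum, ← sum_add_distrib]
    refine sum_congr rfl fun j hj => ?_
    have h := tw i j (ne_of_mem_erase hj).symm
    have e : ∀ a b c : ZMod 2, a + b = c → b = a + c := by decide
    rw [e _ _ _ h]
    ring
  have h2 : ∑ j ∈ S.erase i, D.s i j = ∑ j ∈ S.erase i, D.s j i +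
      D.a i 0 * ∑ j ∈ S.erase i, D.a j 0 := by
    rw [mul_sum, ← sum_add_distrib]
    refine sum_congr rfl fun j hj => ?_
    have h := tw i j (ne_of_mem_erase hj).symm
    have e : ∀ a b c : ZMod 2, a + b = c → a = b + c := by decide
    exact e _ _ _ h
  have h3 : ∑ j ∈ S, D.a j 0 * x j = D.a i 0 * x i + ∑ j ∈ S.erase i, D.a j 0 * x j :=
    (add_sum_erase S _ hi).symm
  have h4 : ∑ j ∈ S, D.a j 0 = D.a i 0 + ∑ j ∈ S.erase i, D.a j 0 := (add_sum_erase S _ hi).symm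
  have h5 : Cr.Nx (Cr.mir D) S (d0 + 1 + 1 + ∑ i ∈ S, D.a i 0) d2 d1 x i =
      ∑ j ∈ S.erase i, D.s j i * x j + (∑ j ∈ S.erase i, D.s i j +
        ((d0 + 1 + 1 + ∑ i ∈ S, D.a i 0) * D.a i 0 + d2 * (D.a i 2 + D.a i 0) +
          d1 * (D.a i 1 + D.a i 0)) + D.a i 0) * x i := rfl
  rw [h5, h1, h2, h3, h4]
  unfold Nx7 wt7
  have e : ∀ a : ZMod 2, a + a = 0 := by decide
  linear_combination e (D.a i 0 * (∑ j ∈ S.erase i, D.a j 0) * x i) + e (D.a i 0 * x i)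

/-- **The second system is the criterion of `-D`.** -/
theorem good_P7_1 (tw : Tw7 D) (hγ : ∀ j, ∑ i ∈ S, D.a i j = γ j) (hS : S.Nonempty) :
    Good7 D S (d0 + 1) d1 d2 ↔ kM D (P7 γ d0 d1 d2 1) S = 2 := by
  have e2 : ∀ x y : ZMod 2, x + y = 0 ↔ y = x := by decide
  have kB : ∀ d0 d1 d2 x y : ZMod 2, (d1 = 0 ∧ d0 + 1 + 1 + x + d2 + x = 0 ∧ d2 + y = 0) ↔
      (d0 + d1 + d2 = 0 ∧ d1 = 0 ∧ y + d2 = 0) := by decide
  have kA : ∀ d0 d1 d2 x y : ZMod 2, (d2 = 0 ∧ d0 + 1 + 1 + x + 1 + d1 = 0 ∧ d1 + y = 0) ↔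
      (x + (d0 + d1 + d2) = 1 ∧ d2 = 0 ∧ y + d1 = 0) := by decide
  have hB : Cr.SqB (Cr.mir D) S (d0 + 1 + 1 + ∑ i ∈ S, D.a i 0) d2 d1 ↔
      (d0 + d1 + d2 = 0 ∧ d1 = 0 ∧ γ 1 + d2 = 0) := by
    show (d1 = 0 ∧ d0 + 1 + 1 + ∑ i ∈ S, D.a i 0 + d2 + ∑ i ∈ S, D.a i 0 = 0 ∧
      d2 + ∑ i ∈ S, D.a i 1 = 0) ↔ _
    rw [hγ 0, hγ 1]
    exact kB _ _ _ _ _
  have hA : Cr.SqA (Cr.mir D) S (d0 + 1 + 1 + ∑ i ∈ S, D.a i 0) d2 d1 ↔
      (γ 0 + (d0 + d1 + d2) = 1 ∧ d2 = 0 ∧ γ 2 + d1 = 0) := by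
    show (d2 = 0 ∧ d0 + 1 + 1 + ∑ i ∈ S, D.a i 0 + 1 + d1 = 0 ∧ d1 + ∑ i ∈ S, D.a i 2 = 0) ↔ _
    rw [hγ 0, hγ 2]
    exact kA _ _ _ _ _
  rw [kM_P7 d0 d1 d2 tw hγ hS 1]
  have h0 : (∀ v, (cfg d0 d1 d2 tw hγ).H v →
      ca 1 * (cfg d0 d1 d2 tw hγ).al v + cb 1 * (cfg d0 d1 d2 tw hγ).bt v = 0 →
      v = 0 ∨ v = (cfg d0 d1 d2 tw hγ).o) ↔ (cfg d0 d1 d2 tw hγ).swap.Crit := by
    rw [Cfg.crit_iff]
    refine forall_congr' fun v => ?_
    have e : ca 1 * (cfg d0 d1 d2 tw hγ).al v + cb 1 * (cfg d0 d1 d2 tw hγ).bt v =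
        (cfg d0 d1 d2 tw hγ).swap.bt v := by
      show 1 * (cfg d0 d1 d2 tw hγ).al v + 0 * _ = (cfg d0 d1 d2 tw hγ).al v
      ring
    rw [e]
    have e' : (cfg d0 d1 d2 tw hγ).H v ↔ (cfg d0 d1 d2 tw hγ).swap.H v := by
      unfold Cfg.H
      constructor
      · rintro ⟨h1, h2, h3⟩
        exact ⟨h1, h3, h2⟩
      · rintro ⟨h1, h2, h3⟩
        exact ⟨h1, h3, h2⟩
    rw [e']
    rfl
  rw [h0]
  have h00 : Good7 D S (d0 + 1) d1 d2 ↔
      Cr.Good (Cr.mir D) S (d0 + 1 + 1 + ∑ i ∈ S, D.a i 0) d2 d1 :=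
    (Cr.good_mir D tw hS (d0 + 1) d1 d2).symm
  rw [h00]
  constructor
  · intro hg v hv h1 h2 h3 h4
    obtain ⟨x, z, rfl⟩ := exists_vx v
    change ua D S (vx S x z) 0 = 0 at h1
    change ua D S (vx S x z) 1 = 0 at h2
    change ¬ (d0 + d1 + d2 = 0 ∧ d1 = 0 ∧ γ 1 + d2 = 0) → ua D S (vx S x z) 2 = 0 at h3
    change γ 0 + (d0 + d1 + d2) = 1 ∧ d2 = 0 ∧ γ 2 + d1 = 0 → ub D S (vx S x z) 1 = 0 at h4
    rw [← hB] at h3
    rw [← hA] at h4
    rw [ua_vx] at h1 h2 h3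
    rw [ub_vx] at h4
    change ∑ i ∈ S, D.a i 0 * x i + z 0 = 0 at h1
    change z 1 = 0 at h2
    change ¬ Cr.SqB (Cr.mir D) S (d0 + 1 + 1 + ∑ i ∈ S, D.a i 0) d2 d1 →
      ∑ i ∈ S, D.a i 1 * x i + z 2 = 0 at h3
    change Cr.SqA (Cr.mir D) S (d0 + 1 + 1 + ∑ i ∈ S, D.a i 0) d2 d1 → z 2 = 0 at h4
    have h5 : Cr.Ker (Cr.mir D) S (d0 + 1 + 1 + ∑ i ∈ S, D.a i 0) d2 d1 x (z 2) := by
      refine ⟨fun i hi => ?_, fun h => (e2 _ _).1 (h3 h), h4⟩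
      have h6 := (GG_vx d0 d1 d2 tw (hγ 0) x z).1 hv i hi
      show Cr.Nx (Cr.mir D) S (d0 + 1 + 1 + ∑ i ∈ S, D.a i 0) d2 d1 x i + D.a i 2 * z 2 = 0
      rw [Nx_mir d0 d1 d2 tw x hi, ← (e2 _ _).1 h1]
      rw [h2] at h6
      linear_combination h6
    rcases hg x (z 2) h5 with ⟨h6, h7⟩ | ⟨h6, h7, h8⟩
    · left
      have hp : ∑ i ∈ S, D.a i 0 * x i = 0 := sum_eq_zero fun i hi => by rw [h6 i hi, mul_zero]
      rw [vx_zero_iff]
      refine ⟨h6, fun e => ?_⟩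
      fin_cases e
      · show z 0 = 0
        rw [hp, zero_add] at h1
        exact h1
      · exact h2
      · exact h7
    · right
      have hp : ∑ i ∈ S, D.a i 0 * x i = γ 0 := by
        rw [← hγ 0]
        exact sum_congr rfl fun i hi => by rw [h6 i hi, mul_one]
      refine ⟨?_, hB.1 h8⟩
      show vx S x z = vx S (fun _ => 1) (kap7 d0 d1 d2 (γ 0))
      rw [vx_eq_iff]
      refine ⟨h6, fun e => ?_⟩
      have h9 := hB.1 h8
      fin_cases e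
      · show z 0 = γ 0 + d0 + d1 + d2
        rw [(e2 _ _).1 h1, hp]
        linear_combination -h9.1
      · show z 1 = d1
        rw [h2, h9.2.1]
      · exact h7
  · intro hc x x1 hx
    obtain ⟨z, hz⟩ : ∃ z : Fin 3 → ZMod 2, z = ![∑ i ∈ S, D.a i 0 * x i, 0, x1] := ⟨_, rfl⟩
    have hz0 : z 0 = ∑ i ∈ S, D.a i 0 * x i := by
      rw [hz]
      rfl
    have hz1 : z 1 = 0 := by
      rw [hz]
      rfl
    have hz2 : z 2 = x1 := by
      rw [hz]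
      rfl
    have h1 := hc (vx S x z) ?_ ?_ ?_ ?_ ?_
    · rcases h1 with h | ⟨h, h8⟩
      · left
        rw [vx_zero_iff] at h
        exact ⟨h.1, by rw [← hz2]; exact h.2 2⟩
      · right
        have h2 : vx S x z = vx S (fun _ => 1) (kap7 d0 d1 d2 (γ 0)) := h
        rw [vx_eq_iff] at h2
        exact ⟨h2.1, by rw [← hz2]; exact h2.2 2, hB.2 h8⟩
    · show GG D S γ d0 d1 d2 (vx S x z)
      rw [GG_vx d0 d1 d2 tw (hγ 0)]
      intro i hi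
      have h2 : Cr.Nx (Cr.mir D) S (d0 + 1 + 1 + ∑ i ∈ S, D.a i 0) d2 d1 x i + D.a i 2 * x1 = 0 :=
        hx.1 i hi
      rw [Nx_mir d0 d1 d2 tw x hi] at h2
      rw [hz0, hz1, hz2]
      linear_combination h2
    · show ua D S (vx S x z) 0 = 0
      rw [ua_vx]
      show ∑ i ∈ S, D.a i 0 * x i + z 0 = 0
      rw [hz0]
      exact CharTwo.add_self_eq_zero _
    · show ua D S (vx S x z) 1 = 0
      rw [ua_vx]
      exact hz1
    · intro h
      change ¬ (d0 + d1 + d2 = 0 ∧ d1 = 0 ∧ γ 1 + d2 = 0) at h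
      rw [← hB] at h
      show ua D S (vx S x z) 2 = 0
      rw [ua_vx]
      show ∑ i ∈ S, D.a i 1 * x i + z 2 = 0
      rw [hz2]
      exact (e2 _ _).2 (hx.2.1 h)
    · intro h
      change γ 0 + (d0 + d1 + d2) = 1 ∧ d2 = 0 ∧ γ 2 + d1 = 0 at h
      rw [← hA] at h
      show ub D S (vx S x z) 1 = 0
      rw [ub_vx]
      show z 2 = 0
      rw [hz2]
      exact hx.2.2 h

/-! ### The pencil -/

/-- the coefficient of the functional in the relation of the rows -/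
def yy (t e f : ZMod 2) : ZMod 2 := if t = 1 ∧ e = 0 ∧ f = 0 then 0 else 1

theorem yy_eq (t e f : ZMod 2) (u : Fin 3 → ZMod 2) :
    (t + 1) * u 0 + f * u 1 + e * u 2 = yy t e f * dp (ww t e f) u := by
  have e : yy t e f * dp (ww t e f) u = (t + 1) * u 0 + f * u 1 + e * u 2 := by
    unfold dp
    generalize u 0 = x
    generalize u 1 = y
    generalize u 2 = z
    revert t e f x y z
    decide
  exact e.symm

/-- The space of the common conditions is not too small. -/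
theorem four_le (tw : Tw7 D) (hγ : ∀ j, ∑ i ∈ S, D.a i j = γ j) (hS : S.Nonempty) :
    4 ≤ kM D (PH γ d0 d1 d2) S := by
  classical
  obtain ⟨y0, hy0⟩ : ∃ y0 : S ⊕ Fin 2 → ZMod 2, y0 = Sum.elim (fun _ => 1)
      ![yy (d0 + d1 + d2) d1 (γ 1 + d2), yy (γ 0 + (d0 + d1 + d2)) d2 (γ 2 + d1)] := ⟨_, rfl⟩
  have hne : y0 ≠ 0 := by
    obtain ⟨i, hi⟩ := hS
    intro h
    have h1 := congrFun h (Sum.inl ⟨i, hi⟩)
    rw [hy0] at h1
    exact one_ne_zero h1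
  have hk : (NM D (PH γ d0 d1 d2) S).transpose.mulVec y0 = 0 := by
    rw [Matrix.mulVec_transpose]
    refine dotProduct_eq_zero _ fun v => ?_
    rw [← Matrix.dotProduct_mulVec, dotProduct, Fintype.sum_sum_type, hy0]
    have h1 : ∑ i : S, Sum.elim (fun _ : S => (1 : ZMod 2))
        ![yy (d0 + d1 + d2) d1 (γ 1 + d2), yy (γ 0 + (d0 + d1 + d2)) d2 (γ 2 + d1)] (Sum.inl i) *
        (NM D (PH γ d0 d1 d2) S).mulVec v (Sum.inl i) =
        ((d0 + d1 + d2 + 1) * ua D S v 0 + (γ 1 + d2) * ua D S v 1 + d1 * ua D S v 2) +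
          ((γ 0 + (d0 + d1 + d2) + 1) * ub D S v 0 + (γ 2 + d1) * ub D S v 1 +
            d2 * ub D S v 2) := by
      rw [← sum_rows d0 d1 d2 tw hγ v]
      refine sum_congr rfl fun i _ => ?_
      rw [NM_inl, ← rows_eq D S γ d0 d1 d2 v i]
      show 1 * _ = _
      rw [one_mul]
      rfl
    have h2 : (NM D (PH γ d0 d1 d2) S).mulVec v (Sum.inr 0) =
        dp (Wa γ d0 d1 d2) (ua D S v) := by
      rw [NM_inr]
      exact row_a D S _ v
    have h3 : (NM D (PH γ d0 d1 d2) S).mulVec v (Sum.inr 1) =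
        dp (Wb γ d0 d1 d2) (ub D S v) := by
      rw [NM_inr]
      exact row_b D S _ v
    rw [h1, Fin.sum_univ_two, h2, h3]
    have h4 := yy_eq (d0 + d1 + d2) d1 (γ 1 + d2) (ua D S v)
    have h5 := yy_eq (γ 0 + (d0 + d1 + d2)) d2 (γ 2 + d1) (ub D S v)
    rw [h4, h5]
    show yy (d0 + d1 + d2) d1 (γ 1 + d2) * dp (Wa γ d0 d1 d2) (ua D S v) +
      yy (γ 0 + (d0 + d1 + d2)) d2 (γ 2 + d1) * dp (Wb γ d0 d1 d2) (ub D S v) +
      (yy (d0 + d1 + d2) d1 (γ 1 + d2) * dp (Wa γ d0 d1 d2) (ua D S v) +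
      yy (γ 0 + (d0 + d1 + d2)) d2 (γ 2 + d1) * dp (Wb γ d0 d1 d2) (ub D S v)) = 0
    exact CharTwo.add_self_eq_zero _
  have h1 := Cr.card_ker_transpose (NM D (PH γ d0 d1 d2) S)
  have h2 : 2 ≤ Nat.card {v : S ⊕ Fin 2 → ZMod 2 //
      (NM D (PH γ d0 d1 d2) S).transpose.mulVec v = 0} := by
    rw [Nat.card_eq_fintype_card, Fintype.card_subtype]
    refine le_trans (le_of_eq (card_pair hne.symm).symm) (card_le_card fun v hv => ?_)
    rw [mem_insert, mem_singleton] at hv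
    rw [mem_filter]
    refine ⟨mem_univ _, ?_⟩
    rcases hv with rfl | rfl
    · exact Matrix.mulVec_zero _
    · exact hk
  have h3 : kM D (PH γ d0 d1 d2) S =
      Nat.card {v : S ⊕ Fin 3 → ZMod 2 // (NM D (PH γ d0 d1 d2) S).mulVec v = 0} := by
    rw [Nat.card_eq_fintype_card]
    rfl
  rw [← h3, Fintype.card_sum, Fintype.card_sum, Fintype.card_fin, Fintype.card_fin, pow_add,
    pow_add] at h1
  have h4 : 0 < 2 ^ Fintype.card S := by positivity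
  nlinarith

/-- **The pencil**: exactly zero or two of the three kernels are as small as possible. -/
theorem pencil_P7 (tw : Tw7 D) (hγ : ∀ j, ∑ i ∈ S, D.a i j = γ j) (hS : S.Nonempty) :
    kM D (P7 γ d0 d1 d2 2) S = 2 ↔
      ¬ (kM D (P7 γ d0 d1 d2 0) S = 2 ↔ kM D (P7 γ d0 d1 d2 1) S = 2) := by
  classical
  have hg : ∃ v, (cfg d0 d1 d2 tw hγ).H v ∧ v ≠ 0 ∧ v ≠ (cfg d0 d1 d2 tw hγ).o := by
    by_contra hcon
    push Not at hcon
    have h1 := four_le d0 d1 d2 tw hγ hS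
    have h2 : kM D (PH γ d0 d1 d2) S ≤ 2 := by
      unfold kM
      rw [Fintype.card_subtype]
      refine le_trans (card_le_card (t := {0, (cfg d0 d1 d2 tw hγ).o}) fun v hv => ?_)
        card_le_two
      rw [mem_filter] at hv
      rw [mem_insert, mem_singleton]
      by_cases h0 : v = 0
      · exact Or.inl h0
      · exact Or.inr (hcon v ((cfg_H d0 d1 d2 tw hγ v).2 hv.2) h0)
    omega
  have h := (cfg d0 d1 d2 tw hγ).pencil hg
  rw [Cfg.not_big, Cfg.not_big, Cfg.not_big] at h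
  have e : ∀ i : Fin 3, ∀ F : (S ⊕ Fin 3 → ZMod 2) → ZMod 2,
      (∀ v, ca i * (cfg d0 d1 d2 tw hγ).al v + cb i * (cfg d0 d1 d2 tw hγ).bt v = F v) →
      (kM D (P7 γ d0 d1 d2 i) S = 2 ↔ ∀ v, (cfg d0 d1 d2 tw hγ).H v → F v = 0 →
        v = 0 ∨ v = (cfg d0 d1 d2 tw hγ).o) := by
    intro i F hF
    rw [kM_P7 d0 d1 d2 tw hγ hS i]
    exact forall_congr' fun v => by rw [hF v]
  rw [e 2 (fun v => (cfg d0 d1 d2 tw hγ).al v + (cfg d0 d1 d2 tw hγ).bt v) fun v => by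
      show 1 * _ + 1 * _ = _
      rw [one_mul, one_mul],
    e 0 (cfg d0 d1 d2 tw hγ).bt fun v => by
      show 0 * _ + 1 * _ = _
      rw [zero_mul, one_mul, zero_add],
    e 1 (cfg d0 d1 d2 tw hγ).al fun v => by
      show 1 * _ + 0 * _ = _
      rw [zero_mul, one_mul, add_zero]]
  exact h

/-! ### The numbers of the trivial vectors -/

theorem sum_op3 (f : Option (Fin 3) → ZMod 2) :
    ∑ a, f a = f none + (f (some 0) + f (some 1) + f (some 2)) := by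
  rw [Fintype.sum_option, Fin.sum_univ_three]

theorem single_dot (e : Fin 3) (γ : Fin 3 → ZMod 2) : (Pi.single e 1 : Fin 3 → ZMod 2) ⬝ᵥ γ = γ e :=
  single_one_dotProduct e γ

variable (γ)

theorem fa_dot (W : Fin 3 → ZMod 2) : fa W ⬝ᵥ γ = W 0 * γ 0 + W 2 * γ 1 := by
  unfold fa
  rw [dot3]
  ring

theorem fb_dot (W : Fin 3 → ZMod 2) : fb W ⬝ᵥ γ = W 2 * γ 2 := by
  unfold fb
  rw [dot3]
  ring

theorem comb_dot (x y : ZMod 2) (u v : Fin 3 → ZMod 2) :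
    (fun j => x * u j + y * v j) ⬝ᵥ γ = x * (u ⬝ᵥ γ) + y * (v ⬝ᵥ γ) := by
  simp only [dotProduct, add_mul, sum_add_distrib, mul_sum, mul_assoc]

theorem kap_dot : kap7 d0 d1 d2 (γ 0) ⬝ᵥ γ =
    (γ 0 + d0 + d1 + d2) * γ 0 + d1 * γ 1 + d2 * γ 2 := by
  unfold kap7
  exact dot3 _ _ _ γ

theorem tcn_P7 (i : Fin 3) :
    tcn (Lc (P7 γ d0 d1 d2 i)) (MMt (P7 γ d0 d1 d2 i) γ) = 2 := by
  have e : ∀ a : ZMod 2, a + a = 0 := by decide
  have hL : ∀ (x : Option (Fin 3) → ZMod 2) (j : Fin 3), ∑ a, Lc (P7 γ d0 d1 d2 i) j a * x a =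
      kap7 d0 d1 d2 (γ 0) j * x none + x (some j) := by
    intro x j
    rw [Fintype.sum_option]
    congr 1
    show ∑ e : Fin 3, (Pi.single e 1 : Fin 3 → ZMod 2) j * x (some e) = x (some j)
    rw [sum_eq_single j]
    · rw [Pi.single_eq_same, one_mul]
    · intro b _ hb
      rw [Pi.single_eq_of_ne hb.symm, zero_mul]
    · intro h
      exact absurd (mem_univ j) h
  refine tcn_two (x0 := fun a => a.elim 1 (kap7 d0 d1 d2 (γ 0))) ?_ ⟨?_, ?_⟩ fun x h1 _ => ?_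
  · intro h
    exact one_ne_zero (congrFun h none)
  · intro j
    rw [hL]
    show kap7 d0 d1 d2 (γ 0) j * 1 + kap7 d0 d1 d2 (γ 0) j = 0
    rw [mul_one]
    exact e _
  · intro b
    rw [sum_op3]
    have ha := dp_ww_self (d0 + d1 + d2) d1 (γ 1 + d2)
    have hb := dp_ww_self (γ 0 + (d0 + d1 + d2)) d2 (γ 2 + d1)
    have hna := dp_nn_self (d0 + d1 + d2) d1 (γ 1 + d2)
    have hnb := dp_nn_self (γ 0 + (d0 + d1 + d2)) d2 (γ 2 + d1)
    change dp (Wa γ d0 d1 d2) _ = 0 at ha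
    change dp (Wb γ d0 d1 d2) _ = 0 at hb
    change dp (Na γ d0 d1 d2) _ = 0 at hna
    change dp (Nb γ d0 d1 d2) _ = 0 at hnb
    have ka : ∀ W : Fin 3 → ZMod 2, dp W ![d0 + d1 + d2, d1, γ 1 + d2] =
        (fa W ⬝ᵥ γ) * 1 + (qa W 0 * (γ 0 + d0 + d1 + d2) + qa W 1 * d1 + qa W 2 * d2) := by
      intro W
      rw [fa_dot]
      show W 0 * (d0 + d1 + d2) + W 1 * d1 + W 2 * (γ 1 + d2) = (W 0 * γ 0 + W 2 * γ 1) * 1 +
        (W 0 * (γ 0 + d0 + d1 + d2) + W 1 * d1 + W 2 * d2)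
      linear_combination -e (W 0 * γ 0)
    have kb : ∀ W : Fin 3 → ZMod 2, dp W ![γ 0 + (d0 + d1 + d2), d2, γ 2 + d1] =
        (fb W ⬝ᵥ γ) * 1 + (qb W 0 * (γ 0 + d0 + d1 + d2) + qb W 1 * d1 + qb W 2 * d2) := by
      intro W
      rw [fb_dot]
      show W 0 * (γ 0 + (d0 + d1 + d2)) + W 1 * d2 + W 2 * (γ 2 + d1) = (W 2 * γ 2) * 1 +
        (W 0 * (γ 0 + d0 + d1 + d2) + W 2 * d1 + W 1 * d2)
      ring
    rcases b with - | f
    · show (kap7 d0 d1 d2 (γ 0) ⬝ᵥ γ) * 1 +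
        (((Pi.single 0 1 : Fin 3 → ZMod 2) ⬝ᵥ γ) * (γ 0 + d0 + d1 + d2) +
        ((Pi.single 1 1 : Fin 3 → ZMod 2) ⬝ᵥ γ) * d1 +
        ((Pi.single 2 1 : Fin 3 → ZMod 2) ⬝ᵥ γ) * d2) = 0
      rw [single_dot, single_dot, single_dot, kap_dot]
      linear_combination e ((γ 0 + d0 + d1 + d2) * γ 0 + d1 * γ 1 + d2 * γ 2)
    · fin_cases f
      · exact (ka (Wa γ d0 d1 d2)).symm.trans ha
      · exact (kb (Wb γ d0 d1 d2)).symm.trans hb
      · show ((fun j => ca i * fa (Na γ d0 d1 d2) j + cb i * fb (Nb γ d0 d1 d2) j) ⬝ᵥ γ) * 1 +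
          ((ca i * qa (Na γ d0 d1 d2) 0 + cb i * qb (Nb γ d0 d1 d2) 0) * (γ 0 + d0 + d1 + d2) +
          (ca i * qa (Na γ d0 d1 d2) 1 + cb i * qb (Nb γ d0 d1 d2) 1) * d1 +
          (ca i * qa (Na γ d0 d1 d2) 2 + cb i * qb (Nb γ d0 d1 d2) 2) * d2) = 0
        rw [comb_dot]
        have k1 := (ka (Na γ d0 d1 d2)).symm.trans hna
        have k2 := (kb (Nb γ d0 d1 d2)).symm.trans hnb
        linear_combination ca i * k1 + cb i * k2
  · have k : ∀ j, x (some j) = kap7 d0 d1 d2 (γ 0) j * x none := by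
      intro j
      have h2 := h1 j
      rw [hL] at h2
      have e' : ∀ a b : ZMod 2, a + b = 0 → b = a := by decide
      exact e' _ _ h2
    rcases Cfg.z2_cases (x none) with h | h
    · left
      funext a
      rcases a with - | a
      · exact h
      · rw [k a, h, mul_zero]
        rfl
    · right
      funext a
      rcases a with - | a
      · exact h
      · rw [k a, h, mul_one]
        rfl

theorem side {t e f xn y z : ZMod 2}
    (h0 : (t + 1) * xn + y * ww t e f 0 + z * nn t e f 0 = 0)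
    (h1 : f * xn + y * ww t e f 1 + z * nn t e f 1 = 0)
    (h2 : e * xn + y * ww t e f 2 + z * nn t e f 2 = 0) : z = 0 ∧ y = xn * yy t e f := by
  revert t e f xn y z
  decide

theorem side0 (t e f : ZMod 2) : (t + 1) + yy t e f * ww t e f 0 = 0 ∧
    f + yy t e f * ww t e f 1 = 0 ∧ e + yy t e f * ww t e f 2 = 0 := by
  revert t e f
  decide

theorem trn_P7 (i : Fin 3) :
    trn (Lr (P7 γ d0 d1 d2 i) w7 γ) (MMt (P7 γ d0 d1 d2 i) γ) = 2 := by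
  have e : ∀ a : ZMod 2, a + a = 0 := by decide
  have sq : ∀ a : ZMod 2, a * a = a := by decide
  have hw : w7 ⬝ᵥ γ = γ 0 := by
    unfold w7
    rw [dot3]
    ring
  -- the equations of the classes
  have hL0 : ∀ x : Option (Fin 3) → ZMod 2, ∑ a, Lr (P7 γ d0 d1 d2 i) w7 γ 0 a * x a =
      (d0 + d1 + d2 + 1) * x none + (Wa γ d0 d1 d2 0 * x (some 0) +
        ca i * Na γ d0 d1 d2 0 * x (some 2)) := by
    intro x
    rw [sum_op3]
    show (γ 0 + d0 + d1 + d2 + (1 + w7 ⬝ᵥ γ) * 1) * x none + (Wa γ d0 d1 d2 0 * x (some 0) +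
      0 * x (some 1) + (ca i * Na γ d0 d1 d2 0 + cb i * 0) * x (some 2)) = _
    rw [hw]
    linear_combination e (γ 0) * x none
  have hL1 : ∀ x : Option (Fin 3) → ZMod 2, ∑ a, Lr (P7 γ d0 d1 d2 i) w7 γ 1 a * x a =
      d1 * x none + (Wa γ d0 d1 d2 2 * x (some 0) + ca i * Na γ d0 d1 d2 2 * x (some 2)) := by
    intro x
    rw [sum_op3]
    show (d1 + (1 + w7 ⬝ᵥ γ) * 0) * x none + (Wa γ d0 d1 d2 2 * x (some 0) +
      0 * x (some 1) + (ca i * Na γ d0 d1 d2 2 + cb i * 0) * x (some 2)) = _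
    ring
  have hL2 : ∀ x : Option (Fin 3) → ZMod 2, ∑ a, Lr (P7 γ d0 d1 d2 i) w7 γ 2 a * x a =
      d2 * x none + (Wb γ d0 d1 d2 2 * x (some 1) + cb i * Nb γ d0 d1 d2 2 * x (some 2)) := by
    intro x
    rw [sum_op3]
    show (d2 + (1 + w7 ⬝ᵥ γ) * 0) * x none + (0 * x (some 0) +
      Wb γ d0 d1 d2 2 * x (some 1) + (ca i * 0 + cb i * Nb γ d0 d1 d2 2) * x (some 2)) = _
    ring
  have hM0 : ∀ x : Option (Fin 3) → ZMod 2,
      ∑ b, MMt (P7 γ d0 d1 d2 i) γ b (some 0) * x b =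
      γ 0 * x none + (Wa γ d0 d1 d2 0 * x (some 0) + Wb γ d0 d1 d2 0 * x (some 1) +
        (ca i * Na γ d0 d1 d2 0 + cb i * Nb γ d0 d1 d2 0) * x (some 2)) := by
    intro x
    rw [sum_op3]
    show ((Pi.single 0 1 : Fin 3 → ZMod 2) ⬝ᵥ γ) * x none + _ = _
    rw [single_dot]
    rfl
  have hM1 : ∀ x : Option (Fin 3) → ZMod 2,
      ∑ b, MMt (P7 γ d0 d1 d2 i) γ b (some 1) * x b =
      γ 1 * x none + (Wa γ d0 d1 d2 1 * x (some 0) + Wb γ d0 d1 d2 2 * x (some 1) +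
        (ca i * Na γ d0 d1 d2 1 + cb i * Nb γ d0 d1 d2 2) * x (some 2)) := by
    intro x
    rw [sum_op3]
    show ((Pi.single 1 1 : Fin 3 → ZMod 2) ⬝ᵥ γ) * x none + _ = _
    rw [single_dot]
    rfl
  have hM2 : ∀ x : Option (Fin 3) → ZMod 2,
      ∑ b, MMt (P7 γ d0 d1 d2 i) γ b (some 2) * x b =
      γ 2 * x none + (Wa γ d0 d1 d2 2 * x (some 0) + Wb γ d0 d1 d2 1 * x (some 1) +
        (ca i * Na γ d0 d1 d2 2 + cb i * Nb γ d0 d1 d2 1) * x (some 2)) := by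
    intro x
    rw [sum_op3]
    show ((Pi.single 2 1 : Fin 3 → ZMod 2) ⬝ᵥ γ) * x none + _ = _
    rw [single_dot]
    rfl
  have hMn : ∀ x : Option (Fin 3) → ZMod 2,
      ∑ b, MMt (P7 γ d0 d1 d2 i) γ b none * x b =
      ((γ 0 + d0 + d1 + d2) * γ 0 + d1 * γ 1 + d2 * γ 2) * x none +
        ((Wa γ d0 d1 d2 0 * γ 0 + Wa γ d0 d1 d2 2 * γ 1) * x (some 0) +
        (Wb γ d0 d1 d2 2 * γ 2) * x (some 1) +
        (ca i * (Na γ d0 d1 d2 0 * γ 0 + Na γ d0 d1 d2 2 * γ 1) +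
          cb i * (Nb γ d0 d1 d2 2 * γ 2)) * x (some 2)) := by
    intro x
    rw [sum_op3]
    show (kap7 d0 d1 d2 (γ 0) ⬝ᵥ γ) * x none + ((fa (Wa γ d0 d1 d2) ⬝ᵥ γ) * x (some 0) +
      (fb (Wb γ d0 d1 d2) ⬝ᵥ γ) * x (some 1) +
      ((fun j => ca i * fa (Na γ d0 d1 d2) j + cb i * fb (Nb γ d0 d1 d2) j) ⬝ᵥ γ) *
        x (some 2)) = _
    rw [comb_dot, kap_dot, fa_dot, fa_dot, fb_dot, fb_dot]
  obtain ⟨ya, hya⟩ : ∃ y, y = yy (d0 + d1 + d2) d1 (γ 1 + d2) := ⟨_, rfl⟩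
  obtain ⟨yb, hyb⟩ : ∃ y, y = yy (γ 0 + (d0 + d1 + d2)) d2 (γ 2 + d1) := ⟨_, rfl⟩
  obtain ⟨a0, a1, a2⟩ := side0 (d0 + d1 + d2) d1 (γ 1 + d2)
  obtain ⟨b0, b1, b2⟩ := side0 (γ 0 + (d0 + d1 + d2)) d2 (γ 2 + d1)
  rw [← hya] at a0 a1 a2
  rw [← hyb] at b0 b1 b2
  change d0 + d1 + d2 + 1 + ya * Wa γ d0 d1 d2 0 = 0 at a0
  change γ 1 + d2 + ya * Wa γ d0 d1 d2 1 = 0 at a1
  change d1 + ya * Wa γ d0 d1 d2 2 = 0 at a2
  change γ 0 + (d0 + d1 + d2) + 1 + yb * Wb γ d0 d1 d2 0 = 0 at b0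
  change γ 2 + d1 + yb * Wb γ d0 d1 d2 1 = 0 at b1
  change d2 + yb * Wb γ d0 d1 d2 2 = 0 at b2
  rw [trn_eq]
  refine tcn_two (x0 := fun b => b.elim 1 ![ya, yb, 0]) ?_ ⟨?_, ?_⟩ fun x h1 h2 => ?_
  · intro h
    exact one_ne_zero (congrFun h none)
  · intro j
    fin_cases j
    · refine (hL0 _).trans ?_
      show (d0 + d1 + d2 + 1) * 1 + (Wa γ d0 d1 d2 0 * ya + ca i * Na γ d0 d1 d2 0 * 0) = 0
      linear_combination a0
    · refine (hL1 _).trans ?_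
      show d1 * 1 + (Wa γ d0 d1 d2 2 * ya + ca i * Na γ d0 d1 d2 2 * 0) = 0
      linear_combination a2
    · refine (hL2 _).trans ?_
      show d2 * 1 + (Wb γ d0 d1 d2 2 * yb + cb i * Nb γ d0 d1 d2 2 * 0) = 0
      linear_combination b2
  · intro a
    rcases a with - | a
    · refine (hMn _).trans ?_
      show ((γ 0 + d0 + d1 + d2) * γ 0 + d1 * γ 1 + d2 * γ 2) * 1 +
        ((Wa γ d0 d1 d2 0 * γ 0 + Wa γ d0 d1 d2 2 * γ 1) * ya + (Wb γ d0 d1 d2 2 * γ 2) * yb +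
        (ca i * (Na γ d0 d1 d2 0 * γ 0 + Na γ d0 d1 d2 2 * γ 1) +
          cb i * (Nb γ d0 d1 d2 2 * γ 2)) * 0) = 0
      have q := sq (γ 0)
      linear_combination γ 0 * a0 + γ 1 * a2 + γ 2 * b2 + q
    · fin_cases a
      · refine (hM0 _).trans ?_
        show γ 0 * 1 + (Wa γ d0 d1 d2 0 * ya + Wb γ d0 d1 d2 0 * yb +
          (ca i * Na γ d0 d1 d2 0 + cb i * Nb γ d0 d1 d2 0) * 0) = 0
        linear_combination a0 + b0 - e (d0 + d1 + d2 + 1)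
      · refine (hM1 _).trans ?_
        show γ 1 * 1 + (Wa γ d0 d1 d2 1 * ya + Wb γ d0 d1 d2 2 * yb +
          (ca i * Na γ d0 d1 d2 1 + cb i * Nb γ d0 d1 d2 2) * 0) = 0
        linear_combination a1 + b2 - e d2
      · refine (hM2 _).trans ?_
        show γ 2 * 1 + (Wa γ d0 d1 d2 2 * ya + Wb γ d0 d1 d2 1 * yb +
          (ca i * Na γ d0 d1 d2 2 + cb i * Nb γ d0 d1 d2 1) * 0) = 0
        linear_combination a2 + b1 - e d1
  · have l0 := (hL0 x).symm.trans (h1 0)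
    have l1 := (hL1 x).symm.trans (h1 1)
    have l2 := (hL2 x).symm.trans (h1 2)
    have m0 := (hM0 x).symm.trans (h2 (some 0))
    have m1 := (hM1 x).symm.trans (h2 (some 1))
    have m2 := (hM2 x).symm.trans (h2 (some 2))
    have sa := side (t := d0 + d1 + d2) (e := d1) (f := γ 1 + d2) (xn := x none) (y := x (some 0))
      (z := ca i * x (some 2)) (by
        show (d0 + d1 + d2 + 1) * x none + x (some 0) * Wa γ d0 d1 d2 0 +
          ca i * x (some 2) * Na γ d0 d1 d2 0 = 0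
        linear_combination l0) (by
        show (γ 1 + d2) * x none + x (some 0) * Wa γ d0 d1 d2 1 +
          ca i * x (some 2) * Na γ d0 d1 d2 1 = 0
        linear_combination m1 + l2 - e (Wb γ d0 d1 d2 2 * x (some 1)) -
          e (cb i * Nb γ d0 d1 d2 2 * x (some 2))) (by
        show d1 * x none + x (some 0) * Wa γ d0 d1 d2 2 +
          ca i * x (some 2) * Na γ d0 d1 d2 2 = 0
        linear_combination l1)
    have sb := side (t := γ 0 + (d0 + d1 + d2)) (e := d2) (f := γ 2 + d1) (xn := x none)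
      (y := x (some 1)) (z := cb i * x (some 2)) (by
        show (γ 0 + (d0 + d1 + d2) + 1) * x none + x (some 1) * Wb γ d0 d1 d2 0 +
          cb i * x (some 2) * Nb γ d0 d1 d2 0 = 0
        linear_combination m0 + l0 - e (Wa γ d0 d1 d2 0 * x (some 0)) -
          e (ca i * Na γ d0 d1 d2 0 * x (some 2))) (by
        show (γ 2 + d1) * x none + x (some 1) * Wb γ d0 d1 d2 1 +
          cb i * x (some 2) * Nb γ d0 d1 d2 1 = 0
        linear_combination m2 + l1 - e (Wa γ d0 d1 d2 2 * x (some 0)) -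
          e (ca i * Na γ d0 d1 d2 2 * x (some 2))) (by
        show d2 * x none + x (some 1) * Wb γ d0 d1 d2 2 +
          cb i * x (some 2) * Nb γ d0 d1 d2 2 = 0
        linear_combination l2)
    rw [← hya] at sa
    rw [← hyb] at sb
    have hz : x (some 2) = 0 := by
      have h3 : ca i = 1 ∨ cb i = 1 := by
        fin_cases i
        · exact Or.inr rfl
        · exact Or.inl rfl
        · exact Or.inl rfl
      rcases h3 with h3 | h3
      · have := sa.1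
        rw [h3, one_mul] at this
        exact this
      · have := sb.1
        rw [h3, one_mul] at this
        exact this
    rcases Cfg.z2_cases (x none) with h | h
    · left
      rw [h, zero_mul] at sa sb
      funext a
      rcases a with - | a
      · exact h
      · fin_cases a
        · exact sa.2
        · exact sb.2
        · exact hz
    · right
      rw [h, one_mul] at sa sb
      funext a
      rcases a with - | a
      · exact h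
      · fin_cases a
        · exact sa.2
        · exact sb.2
        · exact hz

end

end Pool.Agent.Lib.MP_1a91b9_ntV.Pn
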